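import Pool.Agent.V11291.RG.Lay

/-!
# Infinite towers for a finite set of twists
-/

set_option autoImplicit false
set_option linter.style.haveILetI false

open Finset NumberField IsDedekindDomain Filter Topology

namespace Pool.Agent.V11291.RG

open scoped Classical

open Pool.Agent.Y687.MQ (AdmD matD Ind)

open Pool.Agent.Y703.CQ (c2)
open Pool.Agent.Y682.YQ (H9)

open Pool.Agent.Y682.YQ.CA (count)

open Pool.Agent.Y682.XD (RR mq mq_empty mq_insert)

open Pool.Agent.V11291.JH (Ex adm_ne0 sq_uniq prodS joint9 bound_tendsto tend_class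
  count_split count_congr)

/-- the twists by the elements of `T` are good over `S` -/
def GoodT (T S : Finset ℤ) : Prop := ∀ M ∈ T, ∀ U ⊆ S, ∀ D' k : ℤ, AdmD D' →
  M * ∏ d ∈ U, d = D' * k ^ 2 → (matD D').det ≠ 0

lemma not_sq {D P : ℤ} (hD : Squarefree D) (hP : P ≠ 0) (h : |P| < |D|) : ¬ IsSquare (D * P) := by
  rintro ⟨r, hr⟩
  have h1 : D ∣ r * r := ⟨P, hr.symm⟩
  have h2 : D ∣ r := by
    have := (Squarefree.dvd_pow_iff_dvd hD (n := 2) two_ne_zero).1 (by rw [sq]; exact h1)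
    exact this
  obtain ⟨k, hk⟩ := h2
  have hD0 : D ≠ 0 := hD.ne_zero
  have h3 : P = D * k ^ 2 := by
    have h4 : D * P = D * (D * k ^ 2) := by
      rw [hr, hk]
      ring
    exact mul_left_cancel₀ hD0 h4
  have h5 : D ∣ P := ⟨k ^ 2, h3⟩
  have h6 := Int.le_of_dvd (abs_pos.2 hP) ((abs_dvd_abs D P).2 h5)
  omega

/-- there are arbitrarily large `D` with the criterion -/
theorem next_big {s : ℤ} (hs : s = 1 ∨ s = -1) {B S : Finset ℤ} (hB : ∀ b ∈ B, Cl b)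
    (hS : ∀ d ∈ S, Cl d) (hI : Inde S) (hBS : Diff B S) (N : ℕ) :
    ∃ D : ℤ, 0 < s * D ∧ Cl D ∧ ExB B S D ∧ (N : ℤ) < |D| := by
  by_contra hcon
  push Not at hcon
  have h := prop_ex hs hB hS hI hBS
  have hc : 0 < c2 ^ (B.card * 2 ^ S.card) := pow_pos Pool.Agent.Y948.CQ.t_C2.2.1 _
  have h0 : Tendsto (fun X : ℕ => ((2 * N + 1 : ℕ) : ℝ) /
      (count (fun D => AdmD D ∧ 0 < s * D ∧ H9 D) X : ℝ)) atTop (nhds 0) :=
    (tend_class hs).const_div_atTop _
  have hle : ∀ X : ℕ, (count (fun D => AdmD D ∧ 0 < s * D ∧ (H9 D ∧ ExB B S D)) X : ℝ) /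
      (count (fun D => AdmD D ∧ 0 < s * D ∧ H9 D) X : ℝ) ≤ ((2 * N + 1 : ℕ) : ℝ) /
      (count (fun D => AdmD D ∧ 0 < s * D ∧ H9 D) X : ℝ) := by
    intro X
    refine div_le_div_of_nonneg_right ?_ (Nat.cast_nonneg _)
    rw [Nat.cast_le]
    unfold count
    have h1 : ((Finset.Icc (-(N : ℤ)) N).card) = 2 * N + 1 := by
      rw [Int.card_Icc]
      omega
    rw [← h1, ← Nat.card_eq_finsetCard]
    refine Nat.card_le_card_of_injective (fun D => ⟨D.1, ?_⟩) ?_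
    · obtain ⟨D, -, g1, g2, g3, g4⟩ := D
      rw [Finset.mem_Icc]
      exact abs_le.1 (hcon D g2 ⟨g1, g3⟩ g4)
    · rintro ⟨D, hD⟩ ⟨D', hD'⟩ h
      have h' : D = D' := congrArg Subtype.val (show
        (⟨D, _⟩ : {x // x ∈ Finset.Icc (-(N : ℤ)) N}) = ⟨D', _⟩ from h)
      exact Subtype.ext h'
  have := le_of_tendsto_of_tendsto' h h0 hle
  linarith

/-- a bound for the products -/
lemma bound_prod (B S : Finset ℤ) : ∃ N : ℕ, (∀ U ⊆ S, |∏ d ∈ U, d| ≤ (N : ℤ)) ∧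
    ∀ b ∈ B, ∀ b' ∈ B, ∀ U ⊆ S, |b * b' * ∏ d ∈ U, d| ≤ (N : ℤ) := by
  refine ⟨∑ U ∈ S.powerset, (∏ d ∈ U, d).natAbs + ∑ b ∈ B, ∑ b' ∈ B, ∑ U ∈ S.powerset,
    (b * b' * ∏ d ∈ U, d).natAbs, fun U hU => ?_, fun b hb b' hb' U hU => ?_⟩
  · rw [Int.abs_eq_natAbs, Nat.cast_le]
    refine le_trans ?_ (Nat.le_add_right _ _)
    exact Finset.single_le_sum (f := fun U => (∏ d ∈ U, d).natAbs) (fun _ _ => Nat.zero_le _)
      (mem_powerset.2 hU)
  · rw [Int.abs_eq_natAbs, Nat.cast_le]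
    refine le_trans ?_ (Nat.le_add_left _ _)
    refine le_trans ?_ (Finset.single_le_sum (f := fun b => ∑ b' ∈ B, ∑ U ∈ S.powerset,
      (b * b' * ∏ d ∈ U, d).natAbs) (fun _ _ => Nat.zero_le _) hb)
    refine le_trans ?_ (Finset.single_le_sum (f := fun b' => ∑ U ∈ S.powerset,
      (b * b' * ∏ d ∈ U, d).natAbs) (fun _ _ => Nat.zero_le _) hb')
    exact Finset.single_le_sum (f := fun U => (b * b' * ∏ d ∈ U, d).natAbs)
      (fun _ _ => Nat.zero_le _) (mem_powerset.2 hU)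

/-- the next element -/
theorem nextB {s : ℤ} (hs : s = 1 ∨ s = -1) {B S : Finset ℤ} (hB : ∀ b ∈ B, Cl b)
    (hS : ∀ d ∈ S, Cl d) (hI : Inde S) (hBS : Diff B S) :
    ∃ D : ℤ, 0 < s * D ∧ Cl D ∧ D ∉ S ∧ Inde (insert D S) ∧ Diff B (insert D S) ∧ ExB B S D := by
  obtain ⟨N, hN1, hN2⟩ := bound_prod B S
  obtain ⟨D, h1, h2, h3, h4⟩ := next_big hs hB hS hI hBS N
  have hne : ∀ U ⊆ S, (∏ d ∈ U, d) ≠ 0 := fun U hU =>
    Finset.prod_ne_zero_iff.2 fun d hd => (hS d (hU hd)).1.1.ne_zero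
  obtain ⟨h5, h6⟩ := inde_insert (D := D) hI fun T hT => not_sq h2.1.1 (hne T hT)
    (lt_of_le_of_lt (hN1 T hT) h4)
  refine ⟨D, h1, h2, h5, h6, ?_, h3⟩
  intro b hb b' hb' hbb T hT
  by_cases hm : D ∈ T
  · have h7 : T.erase D ⊆ S := by
      intro x hx
      rw [mem_erase] at hx
      exact (mem_insert.1 (hT hx.2)).resolve_left hx.1
    rw [← mul_prod_erase T (fun d => d) hm]
    have e : b * b' * (D * ∏ x ∈ T.erase D, x) = D * (b * b' * ∏ x ∈ T.erase D, x) := by ring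
    rw [e]
    exact not_sq h2.1.1 (mul_ne_zero (mul_ne_zero (hB b hb).1.1.ne_zero (hB b' hb').1.1.ne_zero)
      (hne _ h7)) (lt_of_le_of_lt (hN2 b hb b' hb' _ h7) h4)
  · refine hBS b hb b' hb' hbb T (fun x hx => (mem_insert.1 (hT hx)).resolve_left ?_)
    rintro rfl
    exact hm hx

/-- the good twists -/
lemma goodT_insert {T S : Finset ℤ} {D : ℤ} (h : GoodT T S) (hDS : D ∉ S) (hE : ExB T S D) :
    GoodT T (insert D S) := by
  intro M hM U hU D' k hD' hk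
  by_cases hm : D ∈ U
  · have h7 : U.erase D ⊆ S := by
      intro x hx
      rw [mem_erase] at hx
      exact (mem_insert.1 (hU hx.2)).resolve_left hx.1
    refine hE M hM _ h7 D' k hD' ?_
    rw [← hk, ← mul_prod_erase U (fun d => d) hm]
    ring
  · refine h M hM U (fun x hx => (mem_insert.1 (hU hx)).resolve_left ?_) D' k hD' hk
    rintro rfl
    exact hm hx

/-- **the towers** -/
theorem towerB {B S : Finset ℤ} (hB : ∀ b ∈ B, Cl b) (hS : ∀ d ∈ S, Cl d) (hI : Inde S)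
    (hBS : Diff B S) (σ : ℕ → ℤ) (hσ : ∀ i, σ i = 1 ∨ σ i = -1) :
    ∃ d : ℕ → ℤ, (∀ i, 0 < σ i * d i) ∧ Function.Injective d ∧ (∀ i, d i ∉ S) ∧
      ∀ n, (∀ x ∈ S ∪ (range n).image d, Cl x) ∧ Inde (S ∪ (range n).image d) ∧
        Diff B (S ∪ (range n).image d) ∧ ExB B (S ∪ (range n).image d) (d n) := by
  have hstep : ∀ (n : ℕ) (U : {U : Finset ℤ // (∀ x ∈ U, Cl x) ∧ Inde U ∧ Diff B U}), ∃ D : ℤ,
      0 < σ n * D ∧ D ∉ U.1 ∧ ((∀ x ∈ insert D U.1, Cl x) ∧ Inde (insert D U.1) ∧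
        Diff B (insert D U.1)) ∧ ExB B U.1 D := by
    intro n U
    obtain ⟨D, h1, h2, h3, h4, h5, h6⟩ := nextB (hσ n) hB U.2.1 U.2.2.1 U.2.2.2
    refine ⟨D, h1, h3, ⟨fun x hx => ?_, h4, h5⟩, h6⟩
    rcases mem_insert.1 hx with rfl | hx
    · exact h2
    · exact U.2.1 x hx
  choose pick hp1 hp2 hp3 hp4 using hstep
  let F : ℕ → {U : Finset ℤ // (∀ x ∈ U, Cl x) ∧ Inde U ∧ Diff B U} :=
    fun n => Nat.rec ⟨S, hS, hI, hBS⟩ (fun n U => ⟨insert (pick n U) U.1, hp3 n U⟩) n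
  have hF0 : (F 0).1 = S := rfl
  have hF1 : ∀ n, (F (n + 1)).1 = insert (pick n (F n)) (F n).1 := fun n => rfl
  have hU : ∀ n, (F n).1 = S ∪ (range n).image fun n => pick n (F n) := by
    intro n
    induction n with
    | zero => rw [hF0, range_zero, image_empty, union_empty]
    | succ n ih =>
      rw [hF1, range_add_one, image_insert, union_insert, ← ih]
  have hlt : ∀ m n, m < n → pick m (F m) ≠ pick n (F n) := by
    intro m n hmn h
    apply hp2 n (F n)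
    rw [← h, hU n]
    exact mem_union_right _ (mem_image.2 ⟨m, mem_range.2 hmn, rfl⟩)
  refine ⟨fun n => pick n (F n), fun i => hp1 i (F i), ?_, fun i hi => ?_, fun n => ?_⟩
  · intro m n h
    by_contra hne
    rcases lt_or_gt_of_ne hne with h1 | h1
    · exact hlt m n h1 h
    · exact hlt n m h1 h.symm
  · apply hp2 i (F i)
    rw [hU i]
    exact mem_union_left _ hi
  · rw [← hU n]
    exact ⟨(F n).2.1, (F n).2.2.1, (F n).2.2.2, hp4 n (F n)⟩

/-- the good twists along the tower -/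
theorem goodT_tower {B S : Finset ℤ} (h : GoodT B S) {d : ℕ → ℤ} (hinj : Function.Injective d)
    (hd : ∀ i, d i ∉ S) (hE : ∀ n, ExB B (S ∪ (range n).image d) (d n)) (n : ℕ) :
    GoodT B (S ∪ (range n).image d) := by
  induction n with
  | zero => rwa [range_zero, image_empty, union_empty]
  | succ n ih =>
    have e1 : S ∪ (range (n + 1)).image d = insert (d n) (S ∪ (range n).image d) := by
      rw [range_add_one, image_insert, union_insert]
    rw [e1]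
    refine goodT_insert ih ?_ (hE n)
    rw [mem_union, not_or]
    refine ⟨hd n, ?_⟩
    rw [mem_image]
    rintro ⟨i, hi, hi'⟩
    have := hinj hi'
    rw [mem_range] at hi
    omega

end Pool.Agent.V11291.RG
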