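import Pool.Agent.V11291.RG.Law

/-!
# Infinite towers with constant rank and constant order
-/

set_option autoImplicit false
set_option linter.style.haveILetI false

open Finset Filter Topology NumberField IsDedekindDomain

namespace Pool.Agent.V11291.RG

open scoped Classical

open Pool.Agent.Y682.XD (RR mq mq_empty mq_insert)
open Pool.Agent.Y682.XT (fE)
open Pool.Agent.V11291.JH (Ex)

/-- `G` is entire, and it is the Euler product of `X_0(14)` over `F` for `Re z > 3/2` -/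
def IsG (F : Type) [Field F] [NumberField F] (G : ℂ → ℂ) : Prop := Differentiable ℂ G ∧
  ∀ z : ℂ, 3 / 2 < z.re → HasProd (fE (K := F) z) (G z)

lemma isG_uniq {F : Type} [Field F] [NumberField F] {G G' : ℂ → ℂ} (h : IsG F G) (h' : IsG F G') :
    G = G' := by
  have hF' : AnalyticOnNhd ℂ G Set.univ := fun z _ => h.1.analyticAt z
  have hG' : AnalyticOnNhd ℂ G' Set.univ := fun z _ => h'.1.analyticAt z
  refine hF'.eq_of_eventuallyEq hG' (z₀ := 2) ?_
  have hmem : {s : ℂ | (3 : ℝ) / 2 < s.re} ∈ nhds (2 : ℂ) :=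
    (isOpen_lt continuous_const Complex.continuous_re).mem_nhds (by
      show (3 : ℝ) / 2 < (2 : ℂ).re
      norm_num)
  filter_upwards [hmem] with s hs
  exact (h.2 s hs).unique (h'.2 s hs)

theorem chain {S : Finset ℤ} (hS : ∀ d ∈ S, Cl d) (hI : Inde S) (σ : ℕ → ℤ)
    (hσ : ∀ i, σ i = 1 ∨ σ i = -1) :
    ∃ d : ℕ → ℤ, (∀ i, 0 < σ i * d i) ∧ Function.Injective d ∧ (∀ i, d i ∉ S) ∧
      ∀ n, (∀ x ∈ S ∪ (range n).image d, Cl x) ∧ Inde (S ∪ (range n).image d) ∧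
        Ex (S ∪ (range n).image d) (d n) := by
  have hstep : ∀ (n : ℕ) (U : {U : Finset ℤ // (∀ x ∈ U, Cl x) ∧ Inde U}), ∃ D : ℤ,
      0 < σ n * D ∧ D ∉ U.1 ∧ ((∀ x ∈ insert D U.1, Cl x) ∧ Inde (insert D U.1)) ∧ Ex U.1 D := by
    intro n U
    obtain ⟨D, h1, h2, h3, h4, h5⟩ := exists_next (hσ n) U.2.1 U.2.2
    refine ⟨D, h1, h3, ⟨fun x hx => ?_, h4⟩, h5⟩
    rcases mem_insert.1 hx with rfl | hx
    · exact h2
    · exact U.2.1 x hx
  choose pick hp1 hp2 hp3 hp4 using hstep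
  let F : ℕ → {U : Finset ℤ // (∀ x ∈ U, Cl x) ∧ Inde U} := fun n => Nat.rec ⟨S, hS, hI⟩
    (fun n U => ⟨insert (pick n U) U.1, hp3 n U⟩) n
  have hF0 : (F 0).1 = S := rfl
  have hF1 : ∀ n, (F (n + 1)).1 = insert (pick n (F n)) (F n).1 := fun n => rfl
  have hU : ∀ n, (F n).1 = S ∪ (range n).image fun n => pick n (F n) := by
    intro n
    induction n with
    | zero => rw [hF0, range_zero, image_empty, union_empty]
    | succ n ih =>
      rw [hF1, range_add_one, image_insert, union_insert, ← ih]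
  have hlt : ∀ m n, m < n → pick m (F m) ≠ pick n (F n) := by
    intro m n hmn h
    apply hp2 n (F n)
    rw [← h, hU n]
    exact mem_union_right _ (mem_image.2 ⟨m, mem_range.2 hmn, rfl⟩)
  refine ⟨fun n => pick n (F n), fun i => hp1 i (F i), ?_, fun i hi => ?_, fun n => ?_⟩
  · intro m n h
    by_contra hne
    rcases lt_or_gt_of_ne hne with h1 | h1
    · exact hlt m n h1 h
    · exact hlt n m h1 h.symm
  · apply hp2 i (F i)
    rw [hU i]
    exact mem_union_left _ hi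
  · rw [← hU n]
    exact ⟨(F n).2.1, (F n).2.2, hp4 n (F n)⟩

/-- **the constant rank and order along a chain** -/
theorem const {S : Finset ℤ} {d : ℕ → ℤ} (hdS : ∀ i, d i ∉ S) (hinj : Function.Injective d)
    (h : ∀ n, (∀ x ∈ S ∪ (range n).image d, Cl x) ∧ Inde (S ∪ (range n).image d) ∧
        Ex (S ∪ (range n).image d) (d n)) (n : ℕ)
    (m : ℕ) (K : IntermediateField ℚ ℂ) [NumberField K]
    (hK : K ≤ IntermediateField.adjoin ℚ {z : ℂ | z ^ (3 ^ (m + 1)) = 1})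
    (hodd : Odd (Module.finrank ℚ K)) (F F' : IntermediateField ℚ ℂ) [NumberField F]
    [NumberField F'] (hF : F = mq S ⊔ K) (hF' : F' = mq (S ∪ (range n).image d) ⊔ K) :
    (∃ G G' : ℂ → ℂ, IsG F G ∧ IsG F' G' ∧ analyticOrderAt G' 1 = analyticOrderAt G 1 ∧
      analyticOrderAt G 1 ≠ ⊤) ∧ RR F' 1 = RR F 1 := by
  have hfd : ∀ U : Finset ℤ, (∀ x ∈ U, Cl x) → NumberField (mq U ⊔ K : IntermediateField ℚ ℂ) := by
    intro U hU
    have h1 : FiniteDimensional ℚ (mq U) := (rr_sub U fun d hd => (hU d hd).1.1.ne_zero).1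
    have h2 : FiniteDimensional ℚ (mq U ⊔ K : IntermediateField ℚ ℂ) :=
      IntermediateField.finiteDimensional_sup _ _
    exact { to_charZero := inferInstance, to_finiteDimensional := h2 }
  have step : ∀ n, ∀ (F₁ F₂ : IntermediateField ℚ ℂ) [NumberField F₁] [NumberField F₂],
      F₁ = mq (S ∪ (range n).image d) ⊔ K → F₂ = mq (S ∪ (range (n + 1)).image d) ⊔ K →
      (∃ G G' : ℂ → ℂ, IsG F₁ G ∧ IsG F₂ G' ∧ analyticOrderAt G' 1 = analyticOrderAt G 1 ∧
        analyticOrderAt G 1 ≠ ⊤) ∧ RR F₂ 1 = RR F₁ 1 := by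
    intro n F₁ F₂ _ _ h1 h2
    obtain ⟨g1, g2, g3⟩ := h n
    obtain ⟨g4, g5, -⟩ := h (n + 1)
    have e1 : S ∪ (range (n + 1)).image d = insert (d n) (S ∪ (range n).image d) := by
      rw [range_add_one, image_insert, union_insert]
    have hnm : d n ∉ S ∪ (range n).image d := by
      rw [mem_union, not_or]
      refine ⟨hdS n, ?_⟩
      rw [mem_image]
      rintro ⟨i, hi, hi'⟩
      have := hinj hi'
      rw [mem_range] at hi
      omega
    rw [e1] at g4 g5 h2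
    obtain ⟨⟨G, G', k1, k2, k3, k4, k5, k6⟩, k7, -⟩ := grow g4 hnm g5 g3 m K hK hodd F₁ F₂ h1 h2
    exact ⟨⟨G, G', ⟨k1, k3⟩, ⟨k2, k4⟩, k5, k6⟩, k7⟩
  induction n generalizing F' with
  | zero =>
    have e : F' = F := by
      rw [hF', hF, range_zero, image_empty, union_empty]
    subst e
    obtain ⟨g1, g2, g3⟩ := h 0
    have := hfd _ (h 1).1
    obtain ⟨⟨G, G', k1, k2, k3, k4⟩, -⟩ := step 0 F' (mq (S ∪ (range (0 + 1)).image d) ⊔ K) hF' rfl
    exact ⟨⟨G, G, k1, k1, rfl, k4⟩, rfl⟩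
  | succ n ih =>
    have := hfd _ (h n).1
    obtain ⟨⟨G, G', k1, k2, k3, k4⟩, k5⟩ := ih (mq (S ∪ (range n).image d) ⊔ K) rfl
    obtain ⟨⟨G₁, G₂, l1, l2, l3, l4⟩, l5⟩ := step n (mq (S ∪ (range n).image d) ⊔ K) F' rfl hF'
    have e := isG_uniq k2 l1
    subst e
    exact ⟨⟨G, G₂, k1, l2, l3.trans k3, k4⟩, l5.trans k5⟩

end Pool.Agent.V11291.RG
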