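import Pool.Agent.V11291.RG.Rank

/-!
# The growth of the rank and of the order after adjoining a square root
-/

set_option autoImplicit false
set_option linter.style.haveILetI false

open Finset NumberField IsDedekindDomain Filter Topology

namespace Pool.Agent.V11291.RG

open scoped Classical

open Pool.Agent.Y687.MQ (AdmD matD Ind)

open Pool.Agent.Y682.YQ (H9)

open Pool.Agent.Y682.XD (RR mq mq_empty mq_insert)

open Pool.Agent.Y682.XT (fE)

open Pool.Agent.Y700 (WM)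

open Pool.Agent.Y682.XF (base)

open Pool.Agent.TH841.NF.D (Sha)

open Pool.Agent.V11291.JH (Ex)

/-- **the 2-primary part** for the twist by `D`, for subfields of the complex numbers -/
theorem sha_CD {n : ℕ} (d : Fin n → ℤ) (hd : ∀ i, d i ≠ 0) {D : ℤ} (hD4 : D % 4 = 1)
    (hT : ∀ T : Finset (Fin n), ∃ C k : ℤ, AdmD C ∧ H9 C ∧ (matD C).det ≠ 0 ∧ k ≠ 0 ∧
      D * ∏ i ∈ T, d i = C * k ^ 2) (m : ℕ) (K : IntermediateField ℚ ℂ) [NumberField K]
    (hK : K ≤ IntermediateField.adjoin ℚ {z : ℂ | z ^ (3 ^ (m + 1)) = 1})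
    (hodd : Odd (Module.finrank ℚ K)) (F₀ F : IntermediateField ℚ ℂ)
    [NumberField F] (hF₀ : F₀ = IntermediateField.adjoin ℚ {z : ℂ | ∃ i, z ^ 2 = (d i : ℂ)})
    (hF : F = F₀ ⊔ K) (k : ℕ) (y : Sha (base (WM D) F)) (hy : 2 ^ k • y = 0) : 2 ^ n • y = 0 := by
  obtain ⟨K₁, ⟨e⟩⟩ := Pool.Agent.Y682.YS.layer_iso m K hK
  have hz : NeZero (3 ^ (m + 1)) := ⟨pow_ne_zero _ (by norm_num)⟩
  have hc : IsCyclotomicExtension {3 ^ (m + 1)} ℚ (CyclotomicField (3 ^ (m + 1)) ℚ) :=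
    CyclotomicField.isCyclotomicExtension (3 ^ (m + 1)) ℚ
  have hodd1 : Odd (Module.finrank ℚ K₁) := by
    rw [← e.toLinearEquiv.finrank_eq]
    exact hodd
  have hKF : K ≤ F := by rw [hF]; exact le_sup_right
  have hF₀F : F₀ ≤ F := by rw [hF]; exact le_sup_left
  let φ : K₁ →+* F := ((IntermediateField.inclusion hKF).comp e.symm.toAlgHom).toRingHom
  let _ : Algebra K₁ F := φ.toAlgebra
  have hz : ∀ i, ∃ z : ℂ, z ^ 2 = (d i : ℂ) := fun i =>
    IsAlgClosed.exists_pow_nat_eq _ (by norm_num)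
  choose z hz using hz
  have hmem : ∀ i, z i ∈ F := fun i => by
    apply hF₀F
    rw [hF₀]
    exact IntermediateField.subset_adjoin ℚ _ ⟨i, hz i⟩
  refine sha_absD d hD4 hT m (CyclotomicField (3 ^ (m + 1)) ℚ) K₁ hodd1 F
    (fun i => ⟨z i, hmem i⟩) (fun i => ?_) hd ?_ k y hy
  · apply Subtype.ext
    show z i ^ 2 = ((d i : F) : ℂ)
    rw [hz i]
    exact (map_intCast (algebraMap F ℂ) (d i)).symm
  · intro S hS1 hS2
    let S' : IntermediateField ℚ ℂ := Subfield.toIntermediateField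
      (S.map (F.val : F →+* ℂ)) (fun r => by
        refine ⟨algebraMap ℚ F r, ?_, ?_⟩
        · exact SubfieldClass.ratCast_mem S r
        · rfl)
    have hle : F ≤ S' := by
      rw [hF]
      refine sup_le ?_ ?_
      · rw [hF₀, IntermediateField.adjoin_le_iff]
        rintro w ⟨i, hw⟩
        have h2 : z i ∈ S' := ⟨⟨z i, hmem i⟩, hS2 i, rfl⟩
        rcases sq_eq_sq_iff_eq_or_eq_neg.1 (hw.trans (hz i).symm) with h | h
        · rw [h]
          exact h2
        · rw [h]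
          exact neg_mem h2
      · intro w hw
        refine ⟨φ (e ⟨w, hw⟩), hS1 _, ?_⟩
        show ((IntermediateField.inclusion hKF (e.symm (e ⟨w, hw⟩)) : F) : ℂ) = w
        rw [AlgEquiv.symm_apply_apply]
        rfl
    rw [eq_top_iff]
    intro y _
    obtain ⟨s, hs, hsy⟩ := hle y.2
    have h3 : s = y := Subtype.ext hsy
    rw [← h3]
    exact hs

/-- the class -/
def Cl (D : ℤ) : Prop := AdmD D ∧ H9 D

/-- independence modulo squares -/
def Inde (S : Finset ℤ) : Prop := ∀ T ⊆ S, T.Nonempty → ¬ IsSquare (∏ d ∈ T, d)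

lemma hypS (S : Finset ℤ) (hS : ∀ d ∈ S, Cl d) (m : ℕ) (K : IntermediateField ℚ ℂ)
    [NumberField K] (hK : K ≤ IntermediateField.adjoin ℚ {z : ℂ | z ^ (3 ^ (m + 1)) = 1})
    (hodd : Odd (Module.finrank ℚ K)) : Pool.Agent.Y682.XD.HypS (3 ^ (m + 1)) K S := by
  intro e he
  obtain ⟨hA, h9⟩ := hS e he
  refine ⟨hA.1, hA.2.1, fun p hp hpd => ?_⟩
  obtain ⟨e1, e2, e3⟩ := Pool.Agent.Y682.YQ.adm_ne hA hp hpd
  refine ⟨fun hdv => ?_, Or.inr (Pool.Agent.Y682.YS.inertC m K hK hodd hp (h9 p hp hpd))⟩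
  have h14 : p ∣ 2 * 7 := hdv
  rcases (Nat.Prime.dvd_mul hp).1 h14 with hh | hh
  · exact e1 ((Nat.prime_dvd_prime_iff_eq hp Nat.prime_two).1 hh)
  · exact e2 ((Nat.prime_dvd_prime_iff_eq hp (by norm_num)).1 hh)

/-- an enumeration of a finite set -/
lemma enum (S : Finset ℤ) : ∃ d : Fin S.card → ℤ, Function.Injective d ∧ univ.image d = S := by
  obtain ⟨e, -⟩ : ∃ e : Fin S.card ≃ S, True := ⟨S.equivFin.symm, trivial⟩
  refine ⟨fun i => ((e i : S) : ℤ), fun i j hij => e.injective (Subtype.ext hij), ?_⟩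
  ext x
  rw [mem_image]
  constructor
  · rintro ⟨i, -, rfl⟩
    exact (e i).2
  · intro hx
    obtain ⟨i, hi⟩ := e.surjective ⟨x, hx⟩
    exact ⟨i, mem_univ i, by rw [hi]⟩

lemma mq_eq {n : ℕ} {d : Fin n → ℤ} {S : Finset ℤ} (h : univ.image d = S) :
    mq S = IntermediateField.adjoin ℚ {z : ℂ | ∃ i, z ^ 2 = (d i : ℂ)} := by
  unfold mq
  congr 1
  ext z
  constructor
  · rintro ⟨e, he, hz⟩
    rw [← h] at he
    obtain ⟨i, -, rfl⟩ := mem_image.1 he
    exact ⟨i, hz⟩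
  · rintro ⟨i, hi⟩
    refine ⟨d i, ?_, hi⟩
    rw [← h]
    exact mem_image_of_mem d (mem_univ i)

lemma ind_of {n : ℕ} {d : Fin n → ℤ} {S : Finset ℤ} (hinj : Function.Injective d)
    (h : univ.image d = S) (hS : Inde S) : Ind d := by
  intro T hT
  have h1 : ∏ i ∈ T, d i = ∏ x ∈ T.image d, x := by
    rw [Finset.prod_image fun i _ j _ h => hinj h]
  rw [h1]
  refine hS _ ?_ (hT.image d)
  rw [← h]
  exact image_subset_image (subset_univ T)

/-- **The growth.** -/
theorem grow {S : Finset ℤ} {D : ℤ} (hS : ∀ d ∈ insert D S, Cl d) (hDS : D ∉ S)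
    (hind : Inde (insert D S)) (hEx : Ex S D)
    (m : ℕ) (K : IntermediateField ℚ ℂ) [NumberField K]
    (hK : K ≤ IntermediateField.adjoin ℚ {z : ℂ | z ^ (3 ^ (m + 1)) = 1})
    (hodd : Odd (Module.finrank ℚ K)) (F F' : IntermediateField ℚ ℂ) [NumberField F]
    [NumberField F'] (hF : F = mq S ⊔ K) (hF' : F' = mq (insert D S) ⊔ K) :
    (∃ G G' : ℂ → ℂ, Differentiable ℂ G ∧ Differentiable ℂ G' ∧
      (∀ z : ℂ, 3 / 2 < z.re → HasProd (fE (K := F) z) (G z)) ∧
      (∀ z : ℂ, 3 / 2 < z.re → HasProd (fE (K := F') z) (G' z)) ∧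
      analyticOrderAt G' 1 = analyticOrderAt G 1 ∧ analyticOrderAt G 1 ≠ ⊤) ∧
    RR F' 1 = RR F 1 ∧ RR F D = 0 ∧
    (∀ (k : ℕ) (y : Sha (base (WM D) F)), 2 ^ k • y = 0 → 2 ^ S.card • y = 0) ∧
    Module.finrank ℚ F = 2 ^ S.card * Module.finrank ℚ K ∧
    Module.finrank ℚ F' = 2 ^ (S.card + 1) * Module.finrank ℚ K := by
  have P := Pool.Agent.Y682.YS.partsD
  have hz : NeZero (3 ^ (m + 1)) := ⟨pow_ne_zero _ (by norm_num)⟩
  have hSS : ∀ d ∈ S, Cl d := fun d hd => hS d (mem_insert_of_mem hd)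
  obtain ⟨hDA, hD9⟩ := hS D (mem_insert_self D S)
  have hD0 : D ≠ 0 := hDA.1.ne_zero
  -- the enumeration
  obtain ⟨d, hinj, himg⟩ := enum S
  have hinj' : Function.Injective (Fin.snoc d D : Fin (S.card + 1) → ℤ) := by
    rw [Fin.snoc_injective_iff]
    refine ⟨hinj, ?_⟩
    rintro ⟨i, hi⟩
    apply hDS
    rw [← himg, ← hi]
    exact mem_image_of_mem d (mem_univ i)
  have himg' : univ.image (Fin.snoc d D : Fin (S.card + 1) → ℤ) = insert D S := by
    ext x
    rw [mem_image, mem_insert]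
    constructor
    · rintro ⟨i, -, rfl⟩
      induction i using Fin.lastCases with
      | last => left; rw [Fin.snoc_last]
      | cast i =>
        right
        rw [Fin.snoc_castSucc, ← himg]
        exact mem_image_of_mem d (mem_univ i)
    · rintro (rfl | hx)
      · exact ⟨Fin.last _, mem_univ _, by rw [Fin.snoc_last]⟩
      · rw [← himg] at hx
        obtain ⟨i, -, rfl⟩ := mem_image.1 hx
        exact ⟨Fin.castSucc i, mem_univ _, by rw [Fin.snoc_castSucc]⟩
  have hindS : Inde S := fun T hT => hind T (hT.trans (subset_insert D S))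
  have hI := ind_of hinj himg hindS
  have hI' := ind_of hinj' himg' hind
  have hdS : ∀ i, d i ∈ S := fun i => by
    have h := mem_image_of_mem d (mem_univ i)
    rwa [himg] at h
  have hdS' : ∀ i, (Fin.snoc d D : Fin (S.card + 1) → ℤ) i ∈ insert D S := fun i => by
    have h := mem_image_of_mem (Fin.snoc d D : Fin (S.card + 1) → ℤ) (mem_univ i)
    rwa [himg'] at h
  -- the fields
  have hfd₀ : FiniteDimensional ℚ (mq S) := (rr_sub S fun d hd => (hSS d hd).1.1.ne_zero).1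
  have hfd₁ : FiniteDimensional ℚ (mq (insert D S)) :=
    (rr_sub (insert D S) fun d hd => (hS d hd).1.1.ne_zero).1
  have hN₀ : NumberField (mq S) := { to_charZero := inferInstance, to_finiteDimensional := hfd₀ }
  have hN₁ : NumberField (mq (insert D S)) :=
    { to_charZero := inferInstance, to_finiteDimensional := hfd₁ }
  have hm₀ := mq_eq himg
  have hm₁ := mq_eq himg'
  have hdeg₀ := Pool.Agent.V11291.JH.finrank_sup d (fun i => (hSS _ (hdS i)).1.1.ne_zero) hI (mq S) K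
    F hodd hm₀ hF
  have hdeg₁ := Pool.Agent.V11291.JH.finrank_sup _ (fun i => (hS _ (hdS' i)).1.1.ne_zero) hI'
    (mq (insert D S)) K F' hodd hm₁ hF'
  -- the theorem over the two fields
  have hpp := Nat.prime_three.isPrimePow.pow (Nat.succ_ne_zero m)
  have hcop : (3 ^ (m + 1)).Coprime 14 := Nat.Coprime.pow_left _ (by norm_num)
  obtain ⟨G₀, G, h1, h2, h3, h4, h5, h6, h7, -⟩ := Pool.Agent.Y682.XD.main P (3 ^ (m + 1)) hpp hcop K
    hK hodd (Or.inl (dvd_pow_self 3 (Nat.succ_ne_zero m))) S (hypS S hSS m K hK hodd) (mq S) F rfl hF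
  obtain ⟨G₁, G', k1, k2, k3, k4, k5, k6, k7, -⟩ := Pool.Agent.Y682.XD.main P (3 ^ (m + 1)) hpp hcop K
    hK hodd (Or.inl (dvd_pow_self 3 (Nat.succ_ne_zero m))) (insert D S)
    (hypS (insert D S) hS m K hK hodd) (mq (insert D S)) F' rfl hF'
  -- the products
  have hpr : ∀ T ⊆ S, ∃ C k : ℤ, AdmD C ∧ H9 C ∧ (matD C).det ≠ 0 ∧ k ≠ 0 ∧
      D * ∏ d ∈ T, d = C * k ^ 2 := by
    intro T hT
    have hDT : D ∉ T := fun h => hDS (hT h)
    obtain ⟨C, k, g1, g2, g3, g4⟩ := Pool.Agent.V11291.JH.prodS (S := insert D T) fun d hd => by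
      rcases mem_insert.1 hd with rfl | hd
      · exact ⟨hDA, hD9⟩
      · exact hSS d (hT hd)
    rw [prod_insert hDT] at g4
    exact ⟨C, k, g1, g2, hEx T hT C k g1 g4, g3, g4⟩
  have hord : analyticOrderAt G₁ 1 = analyticOrderAt G₀ 1 := by
    refine ord_mq d D (fun i => (hS _ (hdS' i)).1) (fun i => (hS _ (hdS' i)).2) hI' ?_ (mq S)
      (mq (insert D S)) hm₀ hm₁ h1 k1 h3 k3
    intro T C k hT hC hp
    have e1 : T = insert (Fin.last _) (T.erase (Fin.last _)) := (insert_erase hT).symm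
    have e2 : ∏ i ∈ T, (Fin.snoc d D : Fin (S.card + 1) → ℤ) i =
        D * ∏ x ∈ (T.erase (Fin.last _)).image (Fin.snoc d D : Fin (S.card + 1) → ℤ), x := by
      rw [Finset.prod_image fun i _ j _ h => hinj' h]
      nth_rewrite 1 [e1]
      rw [prod_insert (notMem_erase _ _), Fin.snoc_last]
    rw [e2] at hp
    refine hEx _ ?_ C k hC hp
    intro x hx
    obtain ⟨i, hi, rfl⟩ := mem_image.1 hx
    rcases mem_insert.1 (hdS' i) with h | h
    · exfalso
      apply (mem_erase.1 hi).1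
      apply hinj'
      rw [h, Fin.snoc_last]
    · exact h
  have hrr : RR (mq (insert D S)) 1 = RR (mq S) 1 := by
    refine rr_grow (fun d hd => (hSS d hd).1.1.ne_zero) hD0 (fun T hT => ?_) _ _ rfl rfl
    obtain ⟨C, k, g1, g2, g3, g4, g5⟩ := hpr T hT
    rw [g5]
    exact rr_good g1 g3 g4
  have hrF : RR F' 1 = RR F 1 := by rw [k7, h7, hrr]
  refine ⟨⟨G, G', h2, k2, h4, k4, by rw [k5, h5, hord], by rw [h5]; exact h6⟩, hrF, ?_, ?_, hdeg₀,
    hdeg₁⟩
  · obtain ⟨z, hz⟩ : ∃ z : ℂ, z ^ 2 = (D : ℂ) := IsAlgClosed.exists_pow_nat_eq _ (by norm_num)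
    have hins := mq_insert S D hz
    have hF'' : F' = F ⊔ IntermediateField.adjoin ℚ {z} := by
      rw [hF', hF, hins, sup_right_comm]
    have hzF : z ∉ F := by
      intro hzF
      have e : F' = F := by
        rw [hF'']
        exact sup_eq_left.2 ((IntermediateField.adjoin_simple_le_iff).2 hzF)
      subst e
      rw [hdeg₀, pow_succ] at hdeg₁
      have h0 : 0 < 2 ^ S.card * Module.finrank ℚ K := Nat.mul_pos (by positivity)
        (Nat.pos_of_ne_zero fun h => by rw [h] at hodd; exact absurd hodd (by decide))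
      nlinarith
    have h8 := Pool.Agent.Y682.XD.RR_quad P.qf P.deg2 F F' hD0 hzF hz hF'' one_ne_zero
    rw [hrF, one_mul] at h8
    omega
  · refine sha_CD d (fun i => (hSS _ (hdS i)).1.1.ne_zero) hDA.2.1 (fun T => ?_) m K hK hodd (mq S) F
      hm₀ hF
    obtain ⟨C, k, g1, g2, g3, g4, g5⟩ := hpr (T.image d) (by
      intro x hx
      obtain ⟨i, -, rfl⟩ := mem_image.1 hx
      exact hdS i)
    rw [Finset.prod_image fun i _ j _ h => hinj h] at g5
    exact ⟨C, k, g1, g2, g3, g4, g5⟩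

end Pool.Agent.V11291.RG
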