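import Pool.Agent.V11291.RG.Law

/-!
# The rank of a twist over `K(√d : d ∈ S)`
-/

set_option autoImplicit false
set_option linter.style.haveILetI false

open Finset NumberField IsDedekindDomain Filter Topology

namespace Pool.Agent.V11291.RG

open scoped Classical

open Pool.Agent.Y687.MQ (AdmD matD Ind)

open Pool.Agent.Y682.YQ (H9)

open Pool.Agent.Y682.XD (RR mq mq_empty mq_insert)

/-- the rank over a multiquadratic extension of `K` -/
theorem rr_subK (K : IntermediateField ℚ ℂ) [NumberField K] (S : Finset ℤ) : (∀ d ∈ S, d ≠ 0) →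
    FiniteDimensional ℚ (mq S ⊔ K : IntermediateField ℚ ℂ) ∧
    ∀ (F₀ : IntermediateField ℚ ℂ) [NumberField F₀], F₀ = mq S ⊔ K →
      ∀ c : ℤ, c ≠ 0 → (∀ T ⊆ S, RR K (c * ∏ d ∈ T, d) = 0) → RR F₀ c = 0 := by
  have P := Pool.Agent.Y682.YS.partsD
  induction S using Finset.induction_on with
  | empty =>
    intro _
    rw [mq_empty, bot_sup_eq]
    refine ⟨inferInstance, ?_⟩
    intro F₀ _ hF₀ c hc h
    subst hF₀
    have h1 := h ∅ (Finset.Subset.refl _)
    rwa [prod_empty, mul_one] at h1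
  | insert d S hdS ih =>
    intro hS
    obtain ⟨hfd, ih'⟩ := ih (fun e he => hS e (Finset.mem_insert_of_mem he))
    have hd := hS d (Finset.mem_insert_self _ _)
    obtain ⟨z, hz⟩ : ∃ z : ℂ, z ^ 2 = (d : ℂ) := IsAlgClosed.exists_pow_nat_eq _ (by norm_num)
    have hins0 := mq_insert S d hz
    have hins : (mq (insert d S) ⊔ K : IntermediateField ℚ ℂ) =
        (mq S ⊔ K) ⊔ IntermediateField.adjoin ℚ {z} := by
      rw [hins0, sup_right_comm]
    have hG₀ : NumberField (mq S ⊔ K : IntermediateField ℚ ℂ) :=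
      { to_charZero := inferInstance, to_finiteDimensional := hfd }
    by_cases hz0 : z ∈ (mq S ⊔ K : IntermediateField ℚ ℂ)
    · have hins' : (mq (insert d S) ⊔ K : IntermediateField ℚ ℂ) = mq S ⊔ K := by
        rw [hins]
        exact sup_eq_left.2 ((IntermediateField.adjoin_simple_le_iff).2 hz0)
      rw [hins']
      exact ⟨hfd, fun F₀ _ hF₀ c hc h => ih' F₀ hF₀ c hc fun T hT => h T
        (hT.trans (Finset.subset_insert d S))⟩
    · refine ⟨?_, ?_⟩
      · rw [hins]
        have : FiniteDimensional ℚ (IntermediateField.adjoin ℚ {z} : IntermediateField ℚ ℂ) :=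
          IntermediateField.adjoin.finiteDimensional ⟨Polynomial.X ^ 2 - Polynomial.C (d : ℚ),
            Polynomial.monic_X_pow_sub_C _ (by norm_num), by
              rw [Polynomial.eval₂_sub, Polynomial.eval₂_pow, Polynomial.eval₂_X,
                Polynomial.eval₂_C, hz, map_intCast, sub_self]⟩
        exact IntermediateField.finiteDimensional_sup _ _
      · intro F₀ _ hF₀ c hc h
        rw [Pool.Agent.Y682.XD.RR_quad P.qf P.deg2 (mq S ⊔ K) F₀ hd hz0 hz (hF₀.trans hins) hc,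
          ih' (mq S ⊔ K) rfl c hc fun T hT => h T (hT.trans (Finset.subset_insert d S)),
          ih' (mq S ⊔ K) rfl (c * d) (mul_ne_zero hc hd) fun T hT => ?_]
        have h1 := h (insert d T) (Finset.insert_subset_insert d hT)
        rw [prod_insert fun h' => hdS (hT h')] at h1
        rw [mul_assoc]
        exact h1

/-- the rank of a good twist over the layers -/
theorem rr_goodK (m : ℕ) (K : IntermediateField ℚ ℂ) [NumberField K]
    (hK : K ≤ IntermediateField.adjoin ℚ {z : ℂ | z ^ (3 ^ (m + 1)) = 1})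
    (hodd : Odd (Module.finrank ℚ K)) {C k : ℤ} (hC : AdmD C) (h9 : H9 C)
    (hdet : (matD C).det ≠ 0) (hk : k ≠ 0) : RR K (C * k ^ 2) = 0 := by
  have P := Pool.Agent.Y682.YS.partsD
  obtain ⟨K₁, ⟨e⟩⟩ := Pool.Agent.Y682.YS.layer_iso m K hK
  have hz : NeZero (3 ^ (m + 1)) := ⟨pow_ne_zero _ (by norm_num)⟩
  have hc : IsCyclotomicExtension {3 ^ (m + 1)} ℚ (CyclotomicField (3 ^ (m + 1)) ℚ) :=
    CyclotomicField.isCyclotomicExtension (3 ^ (m + 1)) ℚ
  have hodd1 : Odd (Module.finrank ℚ K₁) := by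
    rw [← e.toLinearEquiv.finrank_eq]
    exact hodd
  have key := (Pool.Agent.Y682.YQ.layer hC h9 m (CyclotomicField (3 ^ (m + 1)) ℚ) K₁ hodd1).2.1
  have h2 := (key.2 hdet).1
  have hC0 : C ≠ 0 := hC.1.ne_zero
  have h3 := (Pool.Agent.Y682.XF.trans_D K₁ hC.2.1).1
  have h5 : RR K₁ C = 0 := h3.symm.trans h2
  have h6 : RR K C = 0 := by
    rw [← h5]
    exact Pool.Agent.Y682.XD.RR_iso P.rke e.toRingEquiv hC0
  have hC2 : (128 * C ^ 2 : ℤ) ≠ 0 := mul_ne_zero (by norm_num) (pow_ne_zero 2 hC.1.ne_zero)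
  have h4 := Pool.Agent.Y682.YS.partsD.sq K (13 * C) (128 * C ^ 2) k hC2 (by
    have e1 : (13 * C) ^ 2 - 4 * (128 * C ^ 2) = -343 * C ^ 2 := by ring
    rw [e1]
    exact mul_ne_zero (by norm_num) (pow_ne_zero 2 hC.1.ne_zero)) hk
  unfold RR at h6 ⊢
  have e1 : 13 * (C * k ^ 2) = 13 * C * k ^ 2 := by ring
  have e2 : 128 * (C * k ^ 2) ^ 2 = 128 * C ^ 2 * k ^ 4 := by ring
  rw [e1, e2, h4, h6]

end Pool.Agent.V11291.RG
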