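import Pool.Agent.V11291.RG.Mod
import Pool.Agent.Results.MP_787500_nt.LayersBlochKatoLaw

/-!
# The Euler factors of the twist, for the minimal equation
-/

set_option autoImplicit false
set_option linter.style.haveILetI false

open Finset Filter Topology NumberField IsDedekindDomain

namespace Pool.Agent.V11291.RG

open scoped Classical

open Pool.Agent.Y700 (WM)
open Pool.Agent.Y19.QT (IsLFun IsLFunK)
open Pool.Agent.Results.MP_787500_nt.LayersBlochKatoLaw (factor a pts base twist)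

lemma disc_tw {M : ℤ} (hM : M % 4 = 1) : (twist M).Δ = -21952 * M ^ 6 := by
  obtain ⟨h1, h2⟩ := wm_c hM
  have h3 : 1728 * (twist M).Δ = (twist M).c₄ ^ 3 - (twist M).c₆ ^ 2 :=
    (twist M).c_relation
  have h4 : (twist M).c₄ = -215 * M ^ 2 := by
    have : -27 * (twist M).c₄ = 5805 * M ^ 2 := h1
    linarith
  have h6 : (twist M).c₆ = 5291 * M ^ 3 := by
    have : -54 * (twist M).c₆ = -285714 * M ^ 3 := h2
    linarith
  rw [h4, h6] at h3
  have h7 : 1728 * (twist M).Δ = 1728 * (-21952 * M ^ 6) := by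
    rw [h3]
    ring
  exact mul_left_cancel₀ (by norm_num) h7

section

variable {K : Type} [Field K] [NumberField K]

lemma bad_iff (M N : ℤ) (v : HeightOneSpectrum (𝓞 K)) :
    ((2 * (4 * (5805 * M ^ 2) ^ 3 + 27 * (-285714 * M ^ 3) ^ 2) * N : ℤ) : 𝓞 K) ∈ v.asIdeal ↔
      ((42 * M * N : ℤ) : 𝓞 K) ∈ v.asIdeal := by
  have e1 : ((2 * (4 * (5805 * M ^ 2) ^ 3 + 27 * (-285714 * M ^ 3) ^ 2) * N : ℤ) : 𝓞 K) =
      (2 : 𝓞 K) ^ 15 * 3 ^ 12 * 7 ^ 3 * M ^ 6 * N := by
    push_cast
    ring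
  have e2 : ((42 * M * N : ℤ) : 𝓞 K) = 42 * (M : 𝓞 K) * N := by push_cast; ring
  rw [e1, e2]
  constructor
  · intro h
    rcases v.isPrime.mem_or_mem h with h | h
    · rcases v.isPrime.mem_or_mem h with h | h
      · rcases v.isPrime.mem_or_mem h with h | h
        · rcases v.isPrime.mem_or_mem h with h | h
          · have h2 := v.isPrime.mem_of_pow_mem 15 h
            have e : (42 * (M : 𝓞 K) * N) = 2 * (21 * M * N) := by ring
            rw [e]
            exact Ideal.mul_mem_right _ _ h2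
          · have h2 := v.isPrime.mem_of_pow_mem 12 h
            have e : (42 * (M : 𝓞 K) * N) = 3 * (14 * M * N) := by ring
            rw [e]
            exact Ideal.mul_mem_right _ _ h2
        · have h2 := v.isPrime.mem_of_pow_mem 3 h
          have e : (42 * (M : 𝓞 K) * N) = 7 * (6 * M * N) := by ring
          rw [e]
          exact Ideal.mul_mem_right _ _ h2
      · have h2 := v.isPrime.mem_of_pow_mem 6 h
        have e : (42 * (M : 𝓞 K) * N) = M * (42 * N) := by ring
        rw [e]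
        exact Ideal.mul_mem_right _ _ h2
    · exact Ideal.mul_mem_left _ _ h
  · intro h
    have e : (2 ^ 15 * 3 ^ 12 * 7 ^ 3 * (M : 𝓞 K) ^ 6 * N) =
        (42 * M * N) * (2 ^ 14 * 3 ^ 11 * 7 ^ 2 * M ^ 5) := by ring
    rw [e]
    exact Ideal.mul_mem_right _ _ h

/-- the Euler factors for the minimal equation and for the short equation -/
lemma fac_eq {M : ℤ} (hM : M % 4 = 1) (N : ℤ) (s : ℂ) (v : HeightOneSpectrum (𝓞 K)) :
    (if ((2 * (4 * (5805 * M ^ 2) ^ 3 + 27 * (-285714 * M ^ 3) ^ 2) * N : ℤ) : 𝓞 K) ∈ v.asIdeal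
      then 1 else (1 - (Pool.Agent.Y19.QT.av K (5805 * M ^ 2) (-285714 * M ^ 3) v : ℂ) *
        (Pool.Agent.Y19.QT.qv K v : ℂ) ^ (-s) + (Pool.Agent.Y19.QT.qv K v : ℂ) ^ (1 - 2 * s))⁻¹) =
    if ((42 * M * N : ℤ) : 𝓞 K) ∈ v.asIdeal then 1 else factor (K := K) (twist M) s v := by
  by_cases h : ((42 * M * N : ℤ) : 𝓞 K) ∈ v.asIdeal
  · rw [if_pos ((bad_iff M N v).2 h), if_pos h]
  · rw [if_neg fun h' => h ((bad_iff M N v).1 h'), if_neg h]
    have hN : Pool.Agent.Y19.QT.qv K v = Ideal.absNorm v.asIdeal := by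
      rw [Ideal.absNorm_apply, Submodule.cardQuot_apply]
      rfl
    have hmax : v.asIdeal.IsMaximal := v.isMaximal
    have h6 : ((6 : ℤ) : 𝓞 K) ∉ v.asIdeal := by
      intro h'
      apply h
      have e : ((42 * M * N : ℤ) : 𝓞 K) = ((6 : ℤ) : 𝓞 K) * (7 * M * N) := by push_cast; ring
      rw [e]
      exact Ideal.mul_mem_right _ _ h'
    obtain ⟨w, hw⟩ : ∃ w : 𝓞 K ⧸ v.asIdeal, 6 * w = 1 := by
      have h0 : (Ideal.Quotient.mk v.asIdeal ((6 : ℤ) : 𝓞 K)) ≠ 0 := fun h =>
        h6 (Ideal.Quotient.eq_zero_iff_mem.1 h)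
      obtain ⟨w, hw⟩ := (Ideal.Quotient.exists_inv h0)
      refine ⟨w, ?_⟩
      have h1 : (Ideal.Quotient.mk v.asIdeal ((6 : ℤ) : 𝓞 K)) = 6 := by
        rw [map_intCast]
        norm_num
      rw [← h1]
      exact hw
    have hΔ : (((twist M).Δ : ℤ) : 𝓞 K) ∉ v.asIdeal := by
      rw [disc_tw hM]
      intro h'
      apply h
      have e : ((-21952 * M ^ 6 : ℤ) : 𝓞 K) = -(2 ^ 6 * 7 ^ 3 * (M : 𝓞 K) ^ 6) := by
        push_cast
        norm_num
      rw [e, neg_mem_iff] at h'
      push_cast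
      rcases v.isPrime.mem_or_mem h' with h | h
      · rcases v.isPrime.mem_or_mem h with h | h
        · have h2 := v.isPrime.mem_of_pow_mem 6 h
          have e : (42 * (M : 𝓞 K) * N) = 2 * (21 * M * N) := by ring
          rw [e]
          exact Ideal.mul_mem_right _ _ h2
        · have h2 := v.isPrime.mem_of_pow_mem 3 h
          have e : (42 * (M : 𝓞 K) * N) = 7 * (6 * M * N) := by ring
          rw [e]
          exact Ideal.mul_mem_right _ _ h2
      · have h2 := v.isPrime.mem_of_pow_mem 6 h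
        have e : (42 * (M : 𝓞 K) * N) = M * (42 * N) := by ring
        rw [e]
        exact Ideal.mul_mem_right _ _ h2
    have ha : Pool.Agent.Y19.QT.av K (5805 * M ^ 2) (-285714 * M ^ 3) v = a (twist M) v := by
      unfold Pool.Agent.Y19.QT.av a pts
      rw [hN]
      have h3 := card_short (twist M) hw
      obtain ⟨h4, h5⟩ := wm_c hM
      have h4' : -27 * (twist M).c₄ = 5805 * M ^ 2 := h4
      have h5' : -54 * (twist M).c₆ = -285714 * M ^ 3 := h5
      rw [h4', h5'] at h3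
      rw [h3]
    unfold factor
    rw [ha, hN, if_neg hΔ]

end

end Pool.Agent.V11291.RG
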