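import Pool.Agent.V11291.RG.Main

/-!
# The exact proportion
-/

set_option autoImplicit false
set_option linter.style.haveILetI false

open Finset Filter Topology

namespace Pool.Agent.V11291.RG

open scoped Classical

open Pool.Agent.Y687.MQ (AdmD matD)
open Pool.Agent.Y703.CQ (c2)
open Pool.Agent.Y682.YQ (H9)
open Pool.Agent.Y682.YQ.CA (count)
open Pool.Agent.V11291.JH (Ex Crit adm_ne0 sq_uniq prodS prod_sd joint9 bound_tendsto tend_class
  count_split count_congr)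

/-- the criterion for the twists by `b D`, `b ∈ B`, and all the products -/
def ExB (B S : Finset ℤ) (D : ℤ) : Prop := ∀ b ∈ B, ∀ T ⊆ S, ∀ D' k : ℤ, AdmD D' →
  D * (b * ∏ d ∈ T, d) = D' * k ^ 2 → (matD D').det ≠ 0

/-- the elements of `B` are different modulo `S` and the squares -/
def Diff (B S : Finset ℤ) : Prop := ∀ b ∈ B, ∀ b' ∈ B, b ≠ b' → ∀ T ⊆ S,
  ¬ IsSquare (b * b' * ∏ d ∈ T, d)

lemma sq_div {a c : ℤ} (hc : c ≠ 0) (h : IsSquare (a * c ^ 2)) : IsSquare a := by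
  obtain ⟨r, hr⟩ := h
  have h6 : c ∣ r := by
    rw [← Int.pow_dvd_pow_iff two_ne_zero, sq r, ← hr]
    exact dvd_mul_left _ _
  obtain ⟨k, hk⟩ := h6
  refine ⟨k, ?_⟩
  have h7 : a * c ^ 2 = k * k * c ^ 2 := by
    rw [hr, hk]
    ring
  exact mul_right_cancel₀ (pow_ne_zero 2 hc) h7

/-- **the exact proportion** -/
theorem prop_ex {s : ℤ} (hs : s = 1 ∨ s = -1) {B S : Finset ℤ} (hB : ∀ b ∈ B, Cl b)
    (hS : ∀ d ∈ S, Cl d) (hI : Inde S) (hBS : Diff B S) :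
    Tendsto (fun X : ℕ => (count (fun D => AdmD D ∧ 0 < s * D ∧ (H9 D ∧ ExB B S D)) X : ℝ) /
      (count (fun D => AdmD D ∧ 0 < s * D ∧ H9 D) X : ℝ)) atTop
      (nhds (c2 ^ (B.card * 2 ^ S.card))) := by
  have hp : ∀ x : ℤ × Finset ℤ, x ∈ B ×ˢ S.powerset → ∃ C k : ℤ, AdmD C ∧ H9 C ∧ k ≠ 0 ∧
      x.1 * ∏ d ∈ x.2, d = C * k ^ 2 := by
    rintro ⟨b, T⟩ hx
    obtain ⟨hb, hT⟩ := mem_product.1 hx
    rw [mem_powerset] at hT
    obtain ⟨C, k, h1, h2, h3, h4⟩ := prodS (S := T) fun d hd => hS d (hT hd)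
    obtain ⟨h5, h6⟩ := hB b hb
    obtain ⟨C', k', h7, h8, h9, h10, -⟩ := Pool.Agent.Y682.YS.mulD h5 h6 h1 h2
    refine ⟨C', k' * k, h7, h8, mul_ne_zero h9 h3, ?_⟩
    show b * ∏ d ∈ T, d = _
    rw [h4, ← mul_assoc, h10]
    ring
  choose! bT kT hb1 hb2 hb3 hb4 using hp
  have hcard : B.card * 2 ^ S.card = (B ×ˢ S.powerset).card := by
    rw [card_product, card_powerset]
  obtain ⟨e, -⟩ : ∃ e : Fin (B.card * 2 ^ S.card) ≃ (B ×ˢ S.powerset : Finset (ℤ × Finset ℤ)), True :=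
    ⟨(finCongr hcard).trans (B ×ˢ S.powerset).equivFin.symm, trivial⟩
  have hmem : ∀ i, (e i).1 ∈ B ×ˢ S.powerset := fun i => (e i).2
  have hinj : Function.Injective (fun i => bT (e i).1) := by
    intro i j hij
    have hij' : bT (e i).1 = bT (e j).1 := hij
    obtain ⟨hi1, hi2⟩ := mem_product.1 (hmem i)
    obtain ⟨hj1, hj2⟩ := mem_product.1 (hmem j)
    rw [mem_powerset] at hi2 hj2
    have h3 := prod_sd (fun d => d) (e i).1.2 (e j).1.2
    have h4 : (∏ p ∈ (e i).1.2 ∩ (e j).1.2, p) ≠ 0 := prod_ne_zero_iff.2 fun d hd =>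
      adm_ne0 (hS d (hi2 (mem_inter.1 hd).1)).1
    have h2 : symmDiff (e i).1.2 (e j).1.2 ⊆ S := by
      intro x hx
      rw [mem_symmDiff] at hx
      rcases hx with hx | hx
      · exact hi2 hx.1
      · exact hj2 hx.1
    have h5 : IsSquare (((e i).1.1 * (e j).1.1 * ∏ p ∈ symmDiff (e i).1.2 (e j).1.2, p) *
        (∏ p ∈ (e i).1.2 ∩ (e j).1.2, p) ^ 2) := by
      refine ⟨bT (e j).1 * kT (e i).1 * kT (e j).1, ?_⟩
      have g1 := hb4 _ (hmem i)
      have g2 := hb4 _ (hmem j)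
      rw [hij'] at g1
      have g3 : ((e i).1.1 * (e j).1.1 * ∏ p ∈ symmDiff (e i).1.2 (e j).1.2, p) *
          (∏ p ∈ (e i).1.2 ∩ (e j).1.2, p) ^ 2 =
          ((e i).1.1 * ∏ p ∈ (e i).1.2, p) * ((e j).1.1 * ∏ p ∈ (e j).1.2, p) := by
        linear_combination (-(e i).1.1 * (e j).1.1) * h3
      rw [g3, g1, g2]
      ring
    have h6 := sq_div h4 h5
    have h7 : (e i).1.1 = (e j).1.1 := by
      by_contra hne
      exact hBS _ hi1 _ hj1 hne _ h2 h6
    have h8 : (e i).1.2 = (e j).1.2 := by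
      by_contra hne
      have h1 : (symmDiff (e i).1.2 (e j).1.2).Nonempty := by
        rw [Finset.nonempty_iff_ne_empty]
        intro h
        exact hne (symmDiff_eq_bot.1 h)
      apply hI _ h2 h1
      rw [h7] at h6
      have h9 : (e j).1.1 ≠ 0 := adm_ne0 (hB _ hj1).1
      refine sq_div h9 ?_
      convert h6 using 1
      ring
    exact e.injective (Subtype.ext (Prod.ext h7 h8))
  have hEx : ∀ D : ℤ, AdmD D → H9 D → (ExB B S D ↔ Crit (fun i => bT (e i).1) D) := by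
    intro D hD h9
    constructor
    · intro h i D' k h1 h2
      obtain ⟨hi1, hi2⟩ := mem_product.1 (hmem i)
      rw [mem_powerset] at hi2
      refine h _ hi1 _ hi2 D' (k * kT (e i).1) h1 ?_
      rw [hb4 _ (hmem i), ← mul_assoc, h2]
      ring
    · intro h b hb T hT D' k h1 h2
      have hbT : (b, T) ∈ B ×ˢ S.powerset := mem_product.2 ⟨hb, mem_powerset.2 hT⟩
      obtain ⟨i, hi⟩ := e.surjective ⟨(b, T), hbT⟩
      have hi' : (e i).1 = (b, T) := congrArg Subtype.val hi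
      obtain ⟨C, k', g1, g2, g3, g4, -⟩ := Pool.Agent.Y682.YS.mulD hD h9 (hb1 _ hbT) (hb2 _ hbT)
      have h4 := hb4 _ hbT
      have g5 : D' = C := by
        have hk : k ≠ 0 := by
          rintro rfl
          apply mul_ne_zero (adm_ne0 hD) (mul_ne_zero (adm_ne0 (hB b hb).1)
            (prod_ne_zero_iff.2 fun d hd => adm_ne0 (hS d (hT hd)).1))
          rw [h2]
          ring
        refine sq_uniq h1 g1 hk (y := k' * kT (b, T)) ?_
        rw [← h2]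
        have h4' : b * ∏ d ∈ T, d = bT (b, T) * kT (b, T) ^ 2 := h4
        rw [h4', ← mul_assoc, g4]
        ring
      rw [g5]
      refine h i C k' g1 ?_
      show D * bT (e i).1 = _
      rw [hi']
      exact g4
  exact joint9 hs (fun i => bT (e i).1) (fun i => hb1 _ (hmem i)) (fun i => hb2 _ (hmem i))
    hinj (ExB B S) hEx

/-- the elements with `D b` dependent on `S` -/
def Ind2 (B S : Finset ℤ) (D : ℤ) : Prop := ∀ b ∈ B, ∀ T ⊆ S, ¬ IsSquare (D * (b * ∏ d ∈ T, d))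

/-- **the exact proportion**, with the independence -/
theorem prop_ex' {s : ℤ} (hs : s = 1 ∨ s = -1) {B S : Finset ℤ} (hB : ∀ b ∈ B, Cl b)
    (hS : ∀ d ∈ S, Cl d) (hI : Inde S) (hBS : Diff B S) :
    Tendsto (fun X : ℕ => (count (fun D => AdmD D ∧ 0 < s * D ∧
      (H9 D ∧ (Ind2 B S D ∧ ExB B S D))) X : ℝ) /
      (count (fun D => AdmD D ∧ 0 < s * D ∧ H9 D) X : ℝ)) atTop
      (nhds (c2 ^ (B.card * 2 ^ S.card))) := by
  have hp : ∀ x : ℤ × Finset ℤ, x ∈ B ×ˢ S.powerset → ∃ C k : ℤ, AdmD C ∧ H9 C ∧ k ≠ 0 ∧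
      x.1 * ∏ d ∈ x.2, d = C * k ^ 2 := by
    rintro ⟨b, T⟩ hx
    obtain ⟨hb, hT⟩ := mem_product.1 hx
    rw [mem_powerset] at hT
    obtain ⟨C, k, h1, h2, h3, h4⟩ := prodS (S := T) fun d hd => hS d (hT hd)
    obtain ⟨h5, h6⟩ := hB b hb
    obtain ⟨C', k', h7, h8, h9, h10, -⟩ := Pool.Agent.Y682.YS.mulD h5 h6 h1 h2
    refine ⟨C', k' * k, h7, h8, mul_ne_zero h9 h3, ?_⟩
    show b * ∏ d ∈ T, d = _
    rw [h4, ← mul_assoc, h10]
    ring
  choose! bT kT hb1 hb2 hb3 hb4 using hp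
  refine bound_tendsto (N := (((B ×ˢ S.powerset).image bT).card : ℝ)) (prop_ex hs hB hS hI hBS)
    (tend_class hs) fun X => ?_
  have k3 := count_split (fun D => AdmD D ∧ 0 < s * D ∧ (H9 D ∧ ExB B S D))
    (fun D => Ind2 B S D) X
  have k4 : count (fun D => (AdmD D ∧ 0 < s * D ∧ (H9 D ∧ ExB B S D)) ∧ Ind2 B S D) X =
      count (fun D => AdmD D ∧ 0 < s * D ∧ (H9 D ∧ (Ind2 B S D ∧ ExB B S D))) X := by
    refine count_congr (fun D => ?_) X
    tauto
  have k5 : count (fun D => (AdmD D ∧ 0 < s * D ∧ (H9 D ∧ ExB B S D)) ∧ ¬ Ind2 B S D) X ≤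
      ((B ×ˢ S.powerset).image bT).card := by
    unfold count
    rw [← Nat.card_eq_finsetCard]
    refine Nat.card_le_card_of_injective (fun D => ⟨D.1, ?_⟩) ?_
    · obtain ⟨D, -, ⟨g1, g2, g3, g4⟩, g5⟩ := D
      unfold Ind2 at g5
      push Not at g5
      obtain ⟨b, hb, T, hT, r, hr⟩ := g5
      have hbT : (b, T) ∈ B ×ˢ S.powerset := mem_product.2 ⟨hb, mem_powerset.2 hT⟩
      refine mem_image.2 ⟨(b, T), hbT, ?_⟩
      have h4 : b * ∏ d ∈ T, d = bT (b, T) * kT (b, T) ^ 2 := hb4 _ hbT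
      refine sq_uniq (hb1 _ hbT) g1 (mul_ne_zero (adm_ne0 g1) (hb3 _ hbT)) (y := r) ?_
      have h5 : D * (bT (b, T) * kT (b, T) ^ 2) = r * r := by rw [← h4, hr]
      linear_combination D * h5
    · rintro ⟨D, hD⟩ ⟨D', hD'⟩ h
      have h' : D = D' := congrArg Subtype.val (show
        (⟨D, _⟩ : {x // x ∈ (B ×ˢ S.powerset).image bT}) = ⟨D', _⟩ from h)
      exact Subtype.ext h'
  rw [← k4, k3]
  push_cast
  rw [sub_add_cancel_left, abs_neg, abs_of_nonneg (Nat.cast_nonneg _)]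
  exact_mod_cast k5

/-- independence of the extended set -/
lemma inde_insert {S : Finset ℤ} {D : ℤ} (hI : Inde S) (h : ∀ T ⊆ S, ¬ IsSquare (D * ∏ d ∈ T, d)) :
    D ∉ S ∧ Inde (insert D S) := by
  have hDS : D ∉ S := by
    intro hm
    apply h {D} (singleton_subset_iff.2 hm)
    rw [prod_singleton]
    exact ⟨D, rfl⟩
  refine ⟨hDS, fun T hT hne => ?_⟩
  by_cases hm : D ∈ T
  · have h3 : T.erase D ⊆ S := by
      intro x hx
      rw [mem_erase] at hx
      exact (mem_insert.1 (hT hx.2)).resolve_left hx.1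
    rw [← mul_prod_erase T (fun d => d) hm]
    exact h _ h3
  · refine hI T (fun x hx => (mem_insert.1 (hT hx)).resolve_left ?_) hne
    rintro rfl
    exact hm hx

/-- the next element of a chain -/
theorem exists_next {s : ℤ} (hs : s = 1 ∨ s = -1) {S : Finset ℤ} (hS : ∀ d ∈ S, Cl d)
    (hI : Inde S) : ∃ D : ℤ, 0 < s * D ∧ Cl D ∧ D ∉ S ∧ Inde (insert D S) ∧ Ex S D := by
  have h1 : Cl 1 := ⟨Pool.Agent.Y682.YS.oneD.1, Pool.Agent.Y682.YS.oneD.2⟩
  have h := prop_ex' (B := {1}) hs (fun b hb => by rw [mem_singleton.1 hb]; exact h1) hS hI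
    (fun b hb b' hb' hne => absurd ((mem_singleton.1 hb).trans (mem_singleton.1 hb').symm) hne)
  have hc : 0 < c2 ^ (({1} : Finset ℤ).card * 2 ^ S.card) :=
    pow_pos Pool.Agent.Y948.CQ.t_C2.2.1 _
  obtain ⟨X, hX⟩ := (h.eventually (lt_mem_nhds hc)).exists
  have h1 : count (fun D => AdmD D ∧ 0 < s * D ∧ (H9 D ∧ (Ind2 {1} S D ∧ ExB {1} S D))) X ≠ 0 := by
    intro h0
    rw [h0] at hX
    simp at hX
  unfold count at h1
  obtain ⟨⟨D, -, g1, g2, g3, g4, g5⟩⟩ := (Nat.card_ne_zero.1 h1).1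
  obtain ⟨g6, g7⟩ := inde_insert (D := D) hI fun T hT h => by
    refine g4 1 (mem_singleton_self 1) T hT ?_
    rwa [one_mul]
  exact ⟨D, g2, ⟨g1, g3⟩, g6, g7, fun T hT D' k k1 k2 => g5 1 (mem_singleton_self 1) T hT D' k k1
    (by rw [one_mul]; exact k2)⟩

end Pool.Agent.V11291.RG
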