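import Pool.Agent.Y682.YS.Cmp
import Pool.Agent.Y682.YQ.Lay
import Pool.Agent.Y687.K2.RankForm
import Pool.Agent.Y687.K4.LfinT
import Pool.Agent.Y687.MQ.One
import Pool.Agent.Y914.QMQ4

/-!
# The `L`-functions of the quadratic twists of `X_0(14)`, without any assumption on the central values
-/

set_option autoImplicit false
set_option linter.style.haveILetI false

open Finset NumberField IsDedekindDomain Filter Topology

namespace Pool.Agent.V11291.RG

open scoped Classical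

open Pool.Agent.Y19.QT (IsLFun IsLFunK)

open Pool.Agent.Y687 (fac)

open Pool.Agent.Y682.XT (fE av pts)

open Pool.Agent.Y682.YS (pol pol_diff factor_short)

/-- the two forms of the Euler product -/
lemma isl_of {a b : ℤ} {f : ℂ → ℂ} (hf : Differentiable ℂ f)
    (hp : ∀ s : ℂ, (3 : ℝ) / 2 < s.re →
        HasProd (fun l : {l : ℕ // l.Prime ∧ ¬ ((l : ℤ) ∣ 2 * (4 * a ^ 3 + 27 * b ^ 2))} =>
          fac a b s l) (f s)) : IsLFun a b f := by
  refine ⟨hf, ?_⟩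
  intro s hs
  have hG : ∀ p : ℕ, (¬ ((p : ℤ) ∣ 2 * (-4 * a ^ 3 - 27 * b ^ 2))) ↔
      ¬ ((p : ℤ) ∣ 2 * (4 * a ^ 3 + 27 * b ^ 2)) := by
    intro p
    have e : 2 * (-4 * a ^ 3 - 27 * b ^ 2) = -(2 * (4 * a ^ 3 + 27 * b ^ 2)) := by ring
    rw [e, dvd_neg]
  have h2 : HasProd ((fun p : ℕ => if p.Prime ∧ ¬ ((p : ℤ) ∣ 2 * (4 * a ^ 3 + 27 * b ^ 2)) then
      fac a b s p else 1) ∘ ((↑) : {l : ℕ | l.Prime ∧ ¬ ((l : ℤ) ∣ 2 * (4 * a ^ 3 + 27 * b ^ 2))} → ℕ))
      (f s) := by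
    refine (congrArg (fun g => HasProd g (f s)) (funext fun p => ?_)).mp (hp s hs)
    simp only [Function.comp_apply]
    exact (if_pos p.2).symm
  have h3 := (hasProd_subtype_iff_of_mulSupport_subset (by
    intro n hn
    rw [Function.mem_mulSupport] at hn
    by_contra h3
    exact hn (if_neg h3))).1 h2
  refine (congrArg (fun g => HasProd g (f s)) (funext fun p => ?_)).mp h3
  by_cases hpp : p.Prime ∧ ¬ ((p : ℤ) ∣ 2 * (4 * a ^ 3 + 27 * b ^ 2))
  · rw [if_pos hpp, if_pos ⟨hpp.1, (hG p).2 hpp.2⟩]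
    unfold fac
    push_cast
    rfl
  · rw [if_neg hpp, if_neg fun h => hpp ⟨h.1, (hG p).1 h.2⟩]

/-- the `L`-function of the twist by `D` -/
theorem exL {D : ℤ} (hsq : Squarefree D) (h4 : D % 4 = 1) (h14 : Nat.Coprime D.natAbs 14) :
    ∃ f, IsLFun (5805 * D ^ 2) (-285714 * D ^ 3) f := by
  by_cases h1 : 1 < D.natAbs
  · obtain ⟨f, g1, hf1, hf2, -⟩ := Pool.Agent.Y687.exists_fD D hsq h1 h4 h14
    exact ⟨f, isl_of hf1 hf2⟩
  · have hD : D = 1 := by
      have h0 := hsq.ne_zero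
      omega
    subst hD
    obtain ⟨f, g1, hf1, hf2, -⟩ := Pool.Agent.Y687.MQ.exists_f1
    exact ⟨f, isl_of hf1 hf2⟩

lemma ab_ne : (4 * 5805 ^ 3 + 27 * (-285714) ^ 2 : ℤ) ≠ 0 := by norm_num

/-- the `L`-function of the twist by a number with the squarefree part `D` -/
theorem exLk {D k : ℤ} (hsq : Squarefree D) (h4 : D % 4 = 1) (h14 : Nat.Coprime D.natAbs 14)
    (hk : k ≠ 0) : ∃ f, IsLFun (5805 * (D * k ^ 2) ^ 2) (-285714 * (D * k ^ 2) ^ 3) f := by
  obtain ⟨f, hf⟩ := exL hsq h4 h14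
  obtain ⟨G, hG, -⟩ := Pool.Agent.Y914.QMQ4.MQ4 5805 (-285714) ab_ne D k hsq.ne_zero hk f hf
  exact ⟨G, hG⟩

section

variable {K : Type} [Field K] [NumberField K]

/-- there is an affine point over every residue field -/
lemma pts_pos (v : HeightOneSpectrum (𝓞 K)) : 0 < pts (𝓞 K ⧸ v.asIdeal) := by
  unfold pts
  have hfin : Finite (𝓞 K ⧸ v.asIdeal) := by
    have h0 := Ideal.absNorm_ne_zero_of_nonZeroDivisors
      (⟨v.asIdeal, mem_nonZeroDivisors_of_ne_zero v.ne_bot⟩ : nonZeroDivisors (Ideal (𝓞 K)))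
    rw [Ideal.absNorm_apply, Submodule.cardQuot_apply] at h0
    exact (Nat.card_ne_zero.1 h0).2
  rw [Nat.card_pos_iff]
  refine ⟨⟨⟨(2, 2), ?_⟩⟩, inferInstance⟩
  rw [WeierstrassCurve.Affine.equation_iff]
  unfold Pool.Agent.W97.MT.E14
  simp only [WeierstrassCurve.map, eq_intCast, Int.cast_one, Int.cast_zero, Int.cast_ofNat,
    Int.cast_neg]
  ring

/-- the Euler factor has no pole at `1` -/
lemma pol_one (v : HeightOneSpectrum (𝓞 K)) : pol v 1 ≠ 0 := by
  have hN0 : Ideal.absNorm v.asIdeal ≠ 0 := Ideal.absNorm_ne_zero_of_nonZeroDivisors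
      ⟨v.asIdeal, mem_nonZeroDivisors_of_ne_zero v.ne_bot⟩
  have hN : (Ideal.absNorm v.asIdeal : ℂ) ≠ 0 := by
    rw [Nat.cast_ne_zero]
    exact hN0
  have hp := pts_pos v
  unfold pol
  have e1 : (Ideal.absNorm v.asIdeal : ℂ) ^ (-(1 : ℂ)) = (Ideal.absNorm v.asIdeal : ℂ)⁻¹ := by
    rw [Complex.cpow_neg, Complex.cpow_one]
  have e2 : (Ideal.absNorm v.asIdeal : ℂ) ^ (1 - 2 * (1 : ℂ)) = (Ideal.absNorm v.asIdeal : ℂ)⁻¹ := by
    rw [show (1 - 2 * (1 : ℂ)) = -1 by norm_num, e1]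
  rw [e1, e2]
  have ha : av v = (Ideal.absNorm v.asIdeal : ℤ) - pts (𝓞 K ⧸ v.asIdeal) := rfl
  rw [ha]
  intro h
  have h2 := congrArg (fun z => z * (Ideal.absNorm v.asIdeal : ℂ)) h
  simp only [zero_mul] at h2
  push_cast at h2
  by_cases h14 : ((14 : ℤ) : 𝓞 K) ∈ v.asIdeal
  · have h14' : ((14 : 𝓞 K)) ∈ v.asIdeal := by
      have := h14
      push_cast at this
      exact this
    rw [if_pos h14', add_zero, sub_mul, one_mul, mul_assoc, inv_mul_cancel₀ hN, mul_one,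
      sub_sub_cancel] at h2
    have h3 : pts (𝓞 K ⧸ v.asIdeal) = 0 := by exact_mod_cast h2
    omega
  · have h14' : ((14 : 𝓞 K)) ∉ v.asIdeal := by
      intro h'
      apply h14
      push_cast
      exact h'
    rw [if_neg h14', add_mul, sub_mul, one_mul, mul_assoc, inv_mul_cancel₀ hN, mul_one,
      sub_sub_cancel] at h2
    have h3 : pts (𝓞 K ⧸ v.asIdeal) + 1 = 0 := by exact_mod_cast h2
    omega

/-- **the order at the central point**: the finitely many Euler factors do not change it -/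
theorem ord_of (hNZ : Pool.Agent.Y682.XD.S_NZ) {D : ℤ} (hD : D ≠ 0) {F G : ℂ → ℂ}
    (hF : IsLFunK K 5805 (-285714) D F) (hG : Differentiable ℂ G)
    (hE : ∀ z : ℂ, 3 / 2 < z.re → HasProd (fE (K := K) z) (G z)) :
    analyticOrderAt F 1 = analyticOrderAt G 1 := by
  obtain ⟨hFd, hFE⟩ := hF
  set N0 : ℤ := 2 * (4 * 5805 ^ 3 + 27 * (-285714) ^ 2) * D with hN0
  have hN00 : ((N0 : ℤ) : 𝓞 K) ≠ 0 := by
    rw [Int.cast_ne_zero, hN0]
    exact mul_ne_zero (by norm_num) hD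
  have hfin : {v : HeightOneSpectrum (𝓞 K) | ((N0 : ℤ) : 𝓞 K) ∈ v.asIdeal}.Finite := by
    have h1 := Ideal.finite_factors (I := Ideal.span {((N0 : ℤ) : 𝓞 K)})
      (by rw [Ne, Ideal.zero_eq_bot, Ideal.span_singleton_eq_bot]; exact hN00)
    refine h1.subset fun v hv => ?_
    show v.asIdeal ∣ _
    rw [Ideal.dvd_span_singleton]
    exact hv
  set V : Finset (HeightOneSpectrum (𝓞 K)) := hfin.toFinset with hV
  have hVm : ∀ v, v ∈ V ↔ ((N0 : ℤ) : 𝓞 K) ∈ v.asIdeal := fun v => hfin.mem_toFinset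
  have key : ∀ z : ℂ, 3 / 2 < z.re → G z = F z * ∏ v ∈ V, fE z v := by
    intro z hz
    have h1 := hFE z hz
    have h2 : HasProd (fun v : HeightOneSpectrum (𝓞 K) => if v ∈ V then fE z v else 1)
        (∏ v ∈ V, fE z v) := by
      have h3 : HasProd (fun v : HeightOneSpectrum (𝓞 K) => if v ∈ V then fE z v else 1)
          (∏ v ∈ V, if v ∈ V then fE z v else 1) :=
        hasProd_prod_of_ne_finset_one (fun v hv => if_neg hv)
      rw [Finset.prod_congr rfl fun v hv => if_pos hv] at h3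
      exact h3
    have h4 := h1.mul h2
    refine (hE z hz).unique (h4.congr_fun ?_)
    intro v
    by_cases hv : v ∈ V
    · rw [if_pos hv, if_pos ((hVm v).1 hv), one_mul]
    · rw [if_neg hv, if_neg (fun h => hv ((hVm v).2 h)), mul_one,
        factor_short D v (fun h => hv ((hVm v).2 h)) z]
  obtain ⟨z0, hz0, hz1⟩ := hNZ K
  have hG0 : G z0 ≠ 0 := hz1 _ (hE z0 hz0)
  have hP0 : ∏ v ∈ V, pol v z0 ≠ 0 := by
    rw [Finset.prod_ne_zero_iff]
    intro v hv h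
    apply hG0
    rw [key z0 hz0, Finset.prod_eq_zero hv, mul_zero]
    show (pol v z0)⁻¹ = 0
    rw [h, inv_zero]
  have hPd : Differentiable ℂ fun z => ∏ v ∈ V, pol v z :=
    Differentiable.fun_finsetProd fun v _ => pol_diff v
  have hnear : ∀ᶠ z in 𝓝 z0, F z = G z * ∏ v ∈ V, pol v z := by
    have h1 : {z : ℂ | 3 / 2 < z.re} ∈ 𝓝 z0 :=
      (isOpen_lt continuous_const Complex.continuous_re).mem_nhds hz0
    have h2 : ∀ᶠ z in 𝓝 z0, ∏ v ∈ V, pol v z ≠ 0 := hPd.continuous.continuousAt.eventually_ne hP0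
    filter_upwards [h1, h2] with z hz hP
    rw [key z hz, mul_assoc, ← Finset.prod_mul_distrib]
    rw [Finset.prod_eq_one, mul_one]
    intro v hv
    show (pol v z)⁻¹ * pol v z = 1
    exact inv_mul_cancel₀ (Finset.prod_ne_zero_iff.1 hP v hv)
  have h1 : AnalyticOnNhd ℂ F Set.univ := fun z _ => hFd.analyticAt z
  have h2 : AnalyticOnNhd ℂ (fun z => G z * ∏ v ∈ V, pol v z) Set.univ :=
    fun z _ => (hG.mul hPd).analyticAt z
  have h3 : F = G * fun z => ∏ v ∈ V, pol v z := h1.eq_of_eventuallyEq h2 hnear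
  have h4 : analyticOrderAt (fun z => ∏ v ∈ V, pol v z) 1 = 0 :=
    (hPd.analyticAt 1).analyticOrderAt_eq_zero.2
      (Finset.prod_ne_zero_iff.2 fun v _ => pol_one v)
  rw [h3, analyticOrderAt_mul (hG.analyticAt 1) (hPd.analyticAt 1), h4, add_zero]

end

end Pool.Agent.V11291.RG
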