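import Pool.Agent.V11291.RG.Chain

/-!
# The `L`-function of the twist over a multiquadratic field
-/

set_option autoImplicit false
set_option linter.style.haveILetI false

open Finset Filter Topology NumberField IsDedekindDomain

namespace Pool.Agent.V11291.RG

open scoped Classical

open Pool.Agent.Y687.MQ (AdmD matD Ind AdT ClG)
open Pool.Agent.Y682.XD (RR mq mq_empty mq_insert)
open Pool.Agent.Y700 (WM)
open Pool.Agent.Y19.QT (IsLFun IsLFunK)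

/-- the points over a ring in which six is invertible -/
lemma card_short (W : WeierstrassCurve ℤ) {R : Type} [CommRing R] {w : R} (hw : 6 * w = 1) :
    Nat.card {P : R × R // (W.map (Int.castRingHom R)).toAffine.Equation P.1 P.2} =
      Nat.card {x : R × R // x.2 ^ 2 = x.1 ^ 3 + ((-27 * W.c₄ : ℤ) : R) * x.1 +
      ((-54 * W.c₆ : ℤ) : R)} := by
  have h36 : (36 : R) * w ^ 2 = 1 := by
    have : (36 : R) * w ^ 2 = (6 * w) ^ 2 := by ring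
    rw [this, hw, one_pow]
  have h216 : (216 : R) * w ^ 3 = 1 := by
    have : (216 : R) * w ^ 3 = (6 * w) ^ 3 := by ring
    rw [this, hw, one_pow]
  have h46 : (46656 : R) * w ^ 6 = 1 := by
    have : (46656 : R) * w ^ 6 = (6 * w) ^ 6 := by ring
    rw [this, hw, one_pow]
  obtain ⟨a₁, h1⟩ : ∃ a : R, a = (W.a₁ : R) := ⟨_, rfl⟩
  obtain ⟨a₂, h2⟩ : ∃ a : R, a = (W.a₂ : R) := ⟨_, rfl⟩
  obtain ⟨a₃, h3⟩ : ∃ a : R, a = (W.a₃ : R) := ⟨_, rfl⟩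
  obtain ⟨a₄, h4⟩ : ∃ a : R, a = (W.a₄ : R) := ⟨_, rfl⟩
  obtain ⟨a₆, h6⟩ : ∃ a : R, a = (W.a₆ : R) := ⟨_, rfl⟩
  have hE : ∀ x y : R, (W.map (Int.castRingHom R)).toAffine.Equation x y ↔
      y ^ 2 + a₁ * x * y + a₃ * y = x ^ 3 + a₂ * x ^ 2 + a₄ * x + a₆ := by
    intro x y
    rw [WeierstrassCurve.Affine.equation_iff, h1, h2, h3, h4, h6]
    simp only [WeierstrassCurve.map, eq_intCast]
  have hc4 : ((-27 * W.c₄ : ℤ) : R) = -27 * ((a₁ ^ 2 + 4 * a₂) ^ 2 - 24 * (2 * a₄ + a₁ * a₃)) := by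
    unfold WeierstrassCurve.c₄ WeierstrassCurve.b₂ WeierstrassCurve.b₄
    rw [h1, h2, h3, h4]
    push_cast
    ring
  have hc6 : ((-54 * W.c₆ : ℤ) : R) = -54 * (-(a₁ ^ 2 + 4 * a₂) ^ 3 +
      36 * (a₁ ^ 2 + 4 * a₂) * (2 * a₄ + a₁ * a₃) - 216 * (a₃ ^ 2 + 4 * a₆)) := by
    unfold WeierstrassCurve.c₆ WeierstrassCurve.b₂ WeierstrassCurve.b₄ WeierstrassCurve.b₆
    rw [h1, h2, h3, h4, h6]
    push_cast
    ring
  rw [hc4, hc6]
  obtain ⟨b, hb⟩ : ∃ b : R, b = 3 * (a₁ ^ 2 + 4 * a₂) := ⟨_, rfl⟩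
  refine Nat.card_congr
    { toFun := fun P => ⟨(36 * P.1.1 + b, 216 * P.1.2 + 108 * a₁ * P.1.1 + 108 * a₃), ?_⟩
      invFun := fun Q => ⟨((Q.1.1 - b) * w ^ 2,
        (Q.1.2 - 108 * a₁ * ((Q.1.1 - b) * w ^ 2) - 108 * a₃) * w ^ 3), ?_⟩
      left_inv := ?_
      right_inv := ?_ }
  · have h := (hE _ _).1 P.2
    show (216 * P.1.2 + 108 * a₁ * P.1.1 + 108 * a₃) ^ 2 = _
    rw [hb]
    linear_combination 46656 * h
  · have h := Q.2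
    rw [hE]
    have e1 : 36 * ((Q.1.1 - b) * w ^ 2) + b = Q.1.1 := by
      linear_combination (Q.1.1 - b) * h36
    have e2 : 216 * ((Q.1.2 - 108 * a₁ * ((Q.1.1 - b) * w ^ 2) - 108 * a₃) * w ^ 3) +
        108 * a₁ * ((Q.1.1 - b) * w ^ 2) + 108 * a₃ = Q.1.2 := by
      linear_combination (Q.1.2 - 108 * a₁ * ((Q.1.1 - b) * w ^ 2) - 108 * a₃) * h216
    obtain ⟨x, hx⟩ : ∃ x, x = (Q.1.1 - b) * w ^ 2 := ⟨_, rfl⟩
    obtain ⟨y, hy⟩ : ∃ y, y = (Q.1.2 - 108 * a₁ * ((Q.1.1 - b) * w ^ 2) - 108 * a₃) * w ^ 3 :=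
      ⟨_, rfl⟩
    rw [← hy, ← hx]
    rw [← hx] at e1
    rw [← hy, ← hx] at e2
    rw [← e1, ← e2, hb] at h
    have h5 : (46656 : R) * (y ^ 2 + a₁ * x * y + a₃ * y - (x ^ 3 + a₂ * x ^ 2 + a₄ * x + a₆)) = 0 := by
      linear_combination h
    have h7 : y ^ 2 + a₁ * x * y + a₃ * y - (x ^ 3 + a₂ * x ^ 2 + a₄ * x + a₆) = 0 := by
      have : y ^ 2 + a₁ * x * y + a₃ * y - (x ^ 3 + a₂ * x ^ 2 + a₄ * x + a₆) =
          w ^ 6 * ((46656 : R) *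
            (y ^ 2 + a₁ * x * y + a₃ * y - (x ^ 3 + a₂ * x ^ 2 + a₄ * x + a₆))) := by
        linear_combination
          (-(y ^ 2 + a₁ * x * y + a₃ * y - (x ^ 3 + a₂ * x ^ 2 + a₄ * x + a₆))) * h46
      rw [this, h5, mul_zero]
    exact sub_eq_zero.1 h7
  · rintro ⟨⟨x, y⟩, h⟩
    refine Subtype.ext (Prod.ext ?_ ?_)
    · show (36 * x + b - b) * w ^ 2 = x
      linear_combination x * h36
    · show ((216 * y + 108 * a₁ * x + 108 * a₃) - 108 * a₁ * ((36 * x + b - b) * w ^ 2) -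
        108 * a₃) * w ^ 3 = y
      linear_combination y * h216 - 108 * a₁ * x * w ^ 3 * h36
  · rintro ⟨⟨x, y⟩, h⟩
    refine Subtype.ext (Prod.ext ?_ ?_)
    · show 36 * ((x - b) * w ^ 2) + b = x
      linear_combination (x - b) * h36
    · show 216 * ((y - 108 * a₁ * ((x - b) * w ^ 2) - 108 * a₃) * w ^ 3) +
        108 * a₁ * ((x - b) * w ^ 2) + 108 * a₃ = y
      linear_combination (y - 108 * a₁ * ((x - b) * w ^ 2) - 108 * a₃) * h216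

/-- the invariants of the minimal equation -/
lemma wm_c {D : ℤ} (hD : D % 4 = 1) : -27 * (WM D).c₄ = 5805 * D ^ 2 ∧
    -54 * (WM D).c₆ = -285714 * D ^ 3 := by
  obtain ⟨k, rfl⟩ : ∃ k, D = 4 * k + 1 := ⟨D / 4, by omega⟩
  have e1 : (4 * k + 1 - 1) / 4 = k := by omega
  have e2 : (9 * (4 * k + 1) ^ 2 - 1) / 2 = 72 * k ^ 2 + 36 * k + 4 := by
    have : 9 * (4 * k + 1) ^ 2 - 1 = 2 * (72 * k ^ 2 + 36 * k + 4) := by ring
    rw [this]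
    omega
  have e3 : (23 * (4 * k + 1) ^ 3 + 1) / 4 = 23 * (16 * k ^ 3 + 12 * k ^ 2 + 3 * k) + 6 := by
    have : 23 * (4 * k + 1) ^ 3 + 1 = 4 * (23 * (16 * k ^ 3 + 12 * k ^ 2 + 3 * k) + 6) := by ring
    rw [this]
    omega
  unfold WM WeierstrassCurve.c₄ WeierstrassCurve.c₆ WeierstrassCurve.b₂ WeierstrassCurve.b₄
    WeierstrassCurve.b₆
  simp only [e1, e2, e3]
  constructor <;> ring

/-- **the twist over a multiquadratic field** -/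
theorem lf_mq {S : Finset ℤ} (hI : Inde S) {M : ℤ}
    (hT : ∀ T ⊆ S, ∃ C k : ℤ, AdmD C ∧ (matD C).det ≠ 0 ∧ k ≠ 0 ∧ M * ∏ d ∈ T, d = C * k ^ 2)
    (F₀ : IntermediateField ℚ ℂ) [NumberField F₀] (hF₀ : F₀ = mq S) :
    ∃ Φ : ℂ → ℂ, IsLFunK F₀ (5805 * M ^ 2) (-285714 * M ^ 3) (∏ d ∈ S, d) Φ ∧ Φ 1 ≠ 0 := by
  obtain ⟨d, hinj, himg⟩ := enum S
  have hind := ind_of hinj himg hI
  have hdS : ∀ i, d i ∈ S := fun i => by
    have h := mem_image_of_mem d (mem_univ i)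
    rwa [himg] at h
  obtain ⟨x, hx, hgen⟩ := Pool.Agent.Y682.YS.gens d F₀ (hF₀.trans (mq_eq himg))
  have hg : AdT ClG M d := by
    intro T
    obtain ⟨C, k, h1, h2, h3, h4⟩ := hT (T.image d) (by
      intro x hx
      obtain ⟨i, -, rfl⟩ := mem_image.1 hx
      exact hdS i)
    obtain ⟨P, T', h6, h7⟩ := Pool.Agent.Y687.MQ.good_iff.1 ⟨h1, h2⟩
    rw [Finset.prod_image fun i _ j _ h => hinj h] at h4
    exact ⟨P, T', k, h6, h3, by rw [h4, h7]⟩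
  obtain ⟨⟨Φ, hΦ, hΦ1⟩, -⟩ := Pool.Agent.Y687.MQ.field_thm
    (fun P T => Pool.Agent.Y687.MQ.WB_all) hg hind F₀ x hx hgen
  have hp : ∏ x ∈ S, x = ∏ i, d i :=
    (Finset.prod_congr himg.symm fun _ _ => rfl).trans (Finset.prod_image fun i _ j _ h => hinj h)
  rw [← hp] at hΦ
  exact ⟨Φ, hΦ, hΦ1⟩

end Pool.Agent.V11291.RG
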