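import Pool.Agent.V11291.RG.Lf
import Pool.Agent.Y687.MQ.Fin
import Pool.Agent.Y73.QMQ1
import Pool.Agent.Y682.YS.Main
import Pool.Agent.Y682.YS.Prod
import Pool.Agent.V11291.JH.Chain

/-!
# The order of the `L`-function over a multiquadratic field after adjoining a square root
-/

set_option autoImplicit false
set_option linter.style.haveILetI false

open Finset NumberField IsDedekindDomain Filter Topology

namespace Pool.Agent.V11291.RG

open scoped Classical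

open Pool.Agent.Y19.QT (IsLFun IsLFunK)

open Pool.Agent.Y687.MQ (AdmD matD Ind)

open Pool.Agent.Y682.YQ (H9)

open Pool.Agent.Y682.XT (fE)

/-- the sum over the subsets without the last element -/
lemma sum_last {n : ℕ} (f : Finset (Fin (n + 1)) → ℕ∞) (h : ∀ T, Fin.last n ∈ T → f T = 0) :
    ∑ T : Finset (Fin (n + 1)), f T = ∑ T : Finset (Fin n), f (T.map Fin.castSuccEmb) := by
  have h1 : ∑ T : Finset (Fin (n + 1)), f T =
      ∑ T ∈ univ.filter (fun T : Finset (Fin (n + 1)) => Fin.last n ∉ T), f T := by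
    rw [Finset.sum_filter]
    refine Finset.sum_congr rfl fun T _ => ?_
    by_cases hT : Fin.last n ∈ T
    · rw [if_neg (not_not.2 hT), h T hT]
    · rw [if_pos hT]
  rw [h1]
  symm
  refine Finset.sum_bij (fun T _ => T.map Fin.castSuccEmb) ?_ ?_ ?_ ?_
  · intro T _
    rw [mem_filter]
    refine ⟨mem_univ _, ?_⟩
    rw [Finset.mem_map]
    rintro ⟨i, -, hi⟩
    exact (Fin.castSucc_lt_last i).ne hi
  · intro T _ T' _ hTT
    exact Finset.map_injective _ hTT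
  · intro T hT
    rw [mem_filter] at hT
    refine ⟨univ.filter fun i => Fin.castSucc i ∈ T, mem_univ _, ?_⟩
    ext j
    rw [Finset.mem_map]
    constructor
    · rintro ⟨i, hi, rfl⟩
      exact (mem_filter.1 hi).2
    · intro hj
      induction j using Fin.lastCases with
      | last => exact absurd hj hT.2
      | cast i => exact ⟨i, mem_filter.2 ⟨mem_univ _, hj⟩, rfl⟩
  · intro T _
    rfl

lemma cop14 {D : ℤ} (h : AdmD D) : Nat.Coprime D.natAbs 14 := by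
  refine Nat.coprime_of_dvd ?_
  intro p hp hpd hp14
  obtain ⟨e1, e2, -⟩ := Pool.Agent.Y682.YQ.adm_ne h hp (Int.natCast_dvd.2 hpd)
  have h14 : p ∣ 2 * 7 := hp14
  rcases (Nat.Prime.dvd_mul hp).1 h14 with hh | hh
  · exact e1 ((Nat.prime_dvd_prime_iff_eq hp Nat.prime_two).1 hh)
  · exact e2 ((Nat.prime_dvd_prime_iff_eq hp (by norm_num)).1 hh)

/-- **The order over `ℚ(√d_1, …, √d_n, √D)`.** -/
theorem ord_mq {n : ℕ} (d : Fin n → ℤ) (D : ℤ)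
    (hA : ∀ i, AdmD ((Fin.snoc d D : Fin (n + 1) → ℤ) i))
    (h9 : ∀ i, H9 ((Fin.snoc d D : Fin (n + 1) → ℤ) i)) (hind : Ind (Fin.snoc d D : Fin (n + 1) → ℤ))
    (hEx : ∀ (T : Finset (Fin (n + 1))) (C k : ℤ), Fin.last n ∈ T → AdmD C →
      ∏ i ∈ T, (Fin.snoc d D : Fin (n + 1) → ℤ) i = C * k ^ 2 → (matD C).det ≠ 0)
    (F₀ F₁ : IntermediateField ℚ ℂ) [NumberField F₀] [NumberField F₁]
    (hF₀ : F₀ = IntermediateField.adjoin ℚ {z : ℂ | ∃ i, z ^ 2 = (d i : ℂ)})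
    (hF₁ : F₁ = IntermediateField.adjoin ℚ
      {z : ℂ | ∃ i, z ^ 2 = (((Fin.snoc d D : Fin (n + 1) → ℤ) i : ℤ) : ℂ)})
    {G₀ G₁ : ℂ → ℂ} (hG₀ : Differentiable ℂ G₀) (hG₁ : Differentiable ℂ G₁)
    (hE₀ : ∀ z : ℂ, 3 / 2 < z.re → HasProd (fE (K := F₀) z) (G₀ z))
    (hE₁ : ∀ z : ℂ, 3 / 2 < z.re → HasProd (fE (K := F₁) z) (G₁ z)) :
    analyticOrderAt G₁ 1 = analyticOrderAt G₀ 1 := by
  have key : ∀ T : Finset (Fin (n + 1)), ∃ G : ℂ → ℂ,
      IsLFun (5805 * (∏ i ∈ T, (Fin.snoc d D : Fin (n + 1) → ℤ) i) ^ 2)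
        (-285714 * (∏ i ∈ T, (Fin.snoc d D : Fin (n + 1) → ℤ) i) ^ 3) G ∧
      (Fin.last n ∈ T → analyticOrderAt G 1 = 0) := by
    intro T
    obtain ⟨C, k, h1, h2, h3, h4, -⟩ := Pool.Agent.Y682.YS.prodD _ hA h9 T
    rw [h4]
    by_cases hT : Fin.last n ∈ T
    · have h5 := hEx T C k hT h1 h4
      obtain ⟨⟨G, hG, hG1⟩, -⟩ := Pool.Agent.Y687.MQ.ZB_scale ab_ne h1.1.ne_zero h3
        (Pool.Agent.Y687.MQ.ZB_of_WB (Pool.Agent.Y687.MQ.WB_D h1 h5))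
      exact ⟨G, hG, fun _ => hG1⟩
    · obtain ⟨G, hG⟩ := exLk h1.1 h1.2.1 (cop14 h1) h3
      exact ⟨G, hG, fun h => absurd h hT⟩
  choose G hG hG1 using key
  obtain ⟨x₁, hx₁, hgen₁⟩ := Pool.Agent.Y682.YS.gens _ F₁ hF₁
  obtain ⟨x₀, hx₀, hgen₀⟩ := Pool.Agent.Y682.YS.gens _ F₀ hF₀
  have hprod : ∀ T : Finset (Fin n), ∏ i ∈ T.map Fin.castSuccEmb,
      (Fin.snoc d D : Fin (n + 1) → ℤ) i = ∏ i ∈ T, d i := by
    intro T
    rw [Finset.prod_map]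
    refine Finset.prod_congr rfl fun i _ => ?_
    show (Fin.snoc d D : Fin (n + 1) → ℤ) (Fin.castSucc i) = d i
    rw [Fin.snoc_castSucc]
  have hind₀ : Ind d := by
    intro T hT
    rw [← hprod T]
    exact hind _ (hT.map)
  have hd₁ : (∏ i, (Fin.snoc d D : Fin (n + 1) → ℤ) i) ≠ 0 :=
    prod_ne_zero_iff.2 fun i _ => (hA i).1.ne_zero
  have hd₀ : (∏ i, d i) ≠ 0 := prod_ne_zero_iff.2 fun i _ => by
    have h := (hA (Fin.castSucc i)).1.ne_zero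
    rwa [Fin.snoc_castSucc] at h
  obtain ⟨Φ₁, hΦ₁, hO₁⟩ := Pool.Agent.Y73.QMQ1.MQ1 5805 (-285714) ab_ne (n + 1) _ hind G hG F₁ x₁
    hx₁ hgen₁
  obtain ⟨Φ₀, hΦ₀, hO₀⟩ := Pool.Agent.Y73.QMQ1.MQ1 5805 (-285714) ab_ne n d hind₀
    (fun T => G (T.map Fin.castSuccEmb)) (fun T => by
      have h := hG (T.map Fin.castSuccEmb)
      rwa [hprod T] at h) F₀ x₀ hx₀ hgen₀
  have e₁ := ord_of Pool.Agent.Y682.YS.partsD.nz hd₁ hΦ₁ hG₁ hE₁
  have e₀ := ord_of Pool.Agent.Y682.YS.partsD.nz hd₀ hΦ₀ hG₀ hE₀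
  rw [← e₁, ← e₀, hO₁ 1 (by norm_num), hO₀ 1 (by norm_num)]
  exact sum_last _ fun T hT => hG1 T hT

end Pool.Agent.V11291.RG
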