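import Pool.Agent.V11291.RG.Ord
import Pool.Agent.V11291.JH.Deg
import Pool.Agent.Y682.YS.Fin

/-!
# The rank and the Tate-Shafarevich group of the twist over a multiquadratic field
-/

set_option autoImplicit false
set_option linter.style.haveILetI false

open Finset NumberField IsDedekindDomain Filter Topology

namespace Pool.Agent.V11291.RG

open scoped Classical

open Pool.Agent.Y687.MQ (AdmD matD Ind)

open Pool.Agent.Y682.YQ (H9)

open Pool.Agent.Y682.XD (RR mq mq_empty mq_insert)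

open Pool.Agent.Y700 (WM)

open Pool.Agent.Y682.XF (base)

open Pool.Agent.TH841.NF.D (Sha)

open Pool.Agent.Y682 (gc)

/-- the rank of the twist by `C k²`, if the matrix of `C` is nonsingular -/
lemma rr_good {C k : ℤ} (hC : AdmD C) (hdet : (matD C).det ≠ 0) (hk : k ≠ 0) :
    RR ℚ (C * k ^ 2) = 0 := by
  have h1 := ((Pool.Agent.Y682.YQ.zer_iff hC).2 hdet).1
  have h2 := Pool.Agent.Y682.YQ.rank_zero h1
  have h3 := (Pool.Agent.Y682.XF.trans_D ℚ hC.2.1).1
  rw [h2] at h3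
  have hC2 : (128 * C ^ 2 : ℤ) ≠ 0 := mul_ne_zero (by norm_num) (pow_ne_zero 2 hC.1.ne_zero)
  have h4 := Pool.Agent.Y682.YS.partsD.sq ℚ (13 * C) (128 * C ^ 2) k hC2 (by
    have e1 : (13 * C) ^ 2 - 4 * (128 * C ^ 2) = -343 * C ^ 2 := by ring
    rw [e1]
    exact mul_ne_zero (by norm_num) (pow_ne_zero 2 hC.1.ne_zero)) hk
  unfold RR
  have e1 : 13 * (C * k ^ 2) = 13 * C * k ^ 2 := by ring
  have e2 : 128 * (C * k ^ 2) ^ 2 = 128 * C ^ 2 * k ^ 4 := by ring
  rw [e1, e2, h4, ← h3]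

/-- the rank over a multiquadratic field -/
theorem rr_sub (S : Finset ℤ) : (∀ d ∈ S, d ≠ 0) → FiniteDimensional ℚ (mq S) ∧
    ∀ (F₀ : IntermediateField ℚ ℂ) [NumberField F₀], F₀ = mq S →
      ∀ c : ℤ, c ≠ 0 → (∀ T ⊆ S, RR ℚ (c * ∏ d ∈ T, d) = 0) → RR F₀ c = 0 := by
  have P := Pool.Agent.Y682.YS.partsD
  induction S using Finset.induction_on with
  | empty =>
    intro _
    refine ⟨?_, ?_⟩
    · rw [mq_empty]; infer_instance
    · intro F₀ _ hF₀ c hc h
      rw [mq_empty] at hF₀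
      subst hF₀
      have hq : RR ℚ c = RR (⊥ : IntermediateField ℚ ℂ) c :=
        Pool.Agent.Y682.XD.RR_iso P.rke (IntermediateField.botEquiv ℚ ℂ).symm.toRingEquiv hc
      rw [← hq]
      have h1 := h ∅ (Finset.Subset.refl _)
      rwa [prod_empty, mul_one] at h1
  | insert d S hdS ih =>
    intro hS
    obtain ⟨hfd, ih'⟩ := ih (fun e he => hS e (Finset.mem_insert_of_mem he))
    have hd := hS d (Finset.mem_insert_self _ _)
    obtain ⟨z, hz⟩ : ∃ z : ℂ, z ^ 2 = (d : ℂ) := IsAlgClosed.exists_pow_nat_eq _ (by norm_num)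
    have hins := mq_insert S d hz
    have hG₀ : NumberField (mq S) := { to_charZero := inferInstance, to_finiteDimensional := hfd }
    by_cases hz0 : z ∈ mq S
    · have hins' : mq (insert d S) = mq S := by
        rw [hins]
        exact sup_eq_left.2 ((IntermediateField.adjoin_simple_le_iff).2 hz0)
      rw [hins']
      exact ⟨hfd, fun F₀ _ hF₀ c hc h => ih' F₀ hF₀ c hc fun T hT => h T
        (hT.trans (Finset.subset_insert d S))⟩
    · refine ⟨?_, ?_⟩
      · rw [hins]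
        have : FiniteDimensional ℚ (IntermediateField.adjoin ℚ {z} : IntermediateField ℚ ℂ) :=
          IntermediateField.adjoin.finiteDimensional ⟨Polynomial.X ^ 2 - Polynomial.C (d : ℚ),
            Polynomial.monic_X_pow_sub_C _ (by norm_num), by
              rw [Polynomial.eval₂_sub, Polynomial.eval₂_pow, Polynomial.eval₂_X,
                Polynomial.eval₂_C, hz, map_intCast, sub_self]⟩
        exact IntermediateField.finiteDimensional_sup _ _
      · intro F₀ _ hF₀ c hc h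
        rw [Pool.Agent.Y682.XD.RR_quad P.qf P.deg2 (mq S) F₀ hd hz0 hz (hF₀.trans hins) hc,
          ih' (mq S) rfl c hc fun T hT => h T (hT.trans (Finset.subset_insert d S)),
          ih' (mq S) rfl (c * d) (mul_ne_zero hc hd) fun T hT => ?_]
        have h1 := h (insert d T) (Finset.insert_subset_insert d hT)
        rw [prod_insert fun h' => hdS (hT h')] at h1
        rw [mul_assoc]
        exact h1

/-- the rank after adjoining a square root -/
theorem rr_grow {S : Finset ℤ} {D : ℤ} (hS : ∀ d ∈ S, d ≠ 0) (hD : D ≠ 0)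
    (hT : ∀ T ⊆ S, RR ℚ (D * ∏ d ∈ T, d) = 0) (F₀ F₁ : IntermediateField ℚ ℂ) [NumberField F₀]
    [NumberField F₁] (hF₀ : F₀ = mq S) (hF₁ : F₁ = mq (insert D S)) :
    RR F₁ 1 = RR F₀ 1 := by
  have P := Pool.Agent.Y682.YS.partsD
  obtain ⟨z, hz⟩ : ∃ z : ℂ, z ^ 2 = (D : ℂ) := IsAlgClosed.exists_pow_nat_eq _ (by norm_num)
  have hins := mq_insert S D hz
  by_cases hz0 : z ∈ mq S
  · have hins' : mq (insert D S) = mq S := by
      rw [hins]
      exact sup_eq_left.2 ((IntermediateField.adjoin_simple_le_iff).2 hz0)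
    have e : F₁ = F₀ := by rw [hF₁, hF₀, hins']
    subst e
    rfl
  · subst hF₀
    rw [Pool.Agent.Y682.XD.RR_quad P.qf P.deg2 (mq S) F₁ hD hz0 hz (hF₁.trans hins) one_ne_zero,
      one_mul, (rr_sub S hS).2 (mq S) rfl D hD hT, add_zero]

/-- **the 2-primary part** for the twist by `D` -/
theorem sha_absD {n : ℕ} (d : Fin n → ℤ) {D : ℤ} (hD4 : D % 4 = 1)
    (hT : ∀ T : Finset (Fin n), ∃ C k : ℤ, AdmD C ∧ H9 C ∧ (matD C).det ≠ 0 ∧ k ≠ 0 ∧
      D * ∏ i ∈ T, d i = C * k ^ 2) (m : ℕ)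
    (M : Type) [Field M] [NumberField M] [IsCyclotomicExtension {3 ^ (m + 1)} ℚ M]
    (K : IntermediateField ℚ M) (hodd : Odd (Module.finrank ℚ K)) (F : Type) [Field F]
    [NumberField F] [Algebra K F] (x : Fin n → F) (hx : ∀ i, x i ^ 2 = (d i : F))
    (hd : ∀ i, d i ≠ 0)
    (hgen : ∀ S : Subfield F, (∀ k : K, algebraMap K F k ∈ S) → (∀ i, x i ∈ S) → S = ⊤)
    (k : ℕ) (y : Sha (base (WM D) F)) (hy : 2 ^ k • y = 0) : 2 ^ n • y = 0 := by
  have hgal : IsGalois K F := Pool.Agent.Y682.YS.galois d x hx hgen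
  have hq := Pool.Agent.Y715.CS.YS.quad (K := K) (F := F) d x hd hx hgen (13 * D) (128 * D ^ 2) (by
    intro T k y hy
    obtain ⟨C, k0, h1, h2, h3, h4, h5⟩ := hT T
    have e1 : 13 * D * ∏ i ∈ T, d i = 13 * (D * ∏ i ∈ T, d i) := by ring
    have e2 : 128 * D ^ 2 * (∏ i ∈ T, d i) ^ 2 = 128 * (D * ∏ i ∈ T, d i) ^ 2 := by ring
    have key : ∀ A B : ℤ, A = 13 * (D * ∏ i ∈ T, d i) → B = 128 * (D * ∏ i ∈ T, d i) ^ 2 →
        ∀ y : Sha (gc A B K), 2 ^ k • y = 0 → y = 0 := by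
      rintro _ _ rfl rfl y hy
      exact Pool.Agent.Y682.YS.hypK h1 h2 h3 h4 h5 m M K hodd k y hy
    exact key _ _ e1 e2 y hy)
  obtain ⟨-, ⟨e⟩⟩ := Pool.Agent.Y655.XT.s_shavc F (base (WM D) F)
    (gc (13 * D) (128 * D ^ 2) F) (Pool.Agent.Y682.XF.CVD F D) (Pool.Agent.Y682.XF.wm_disc_ne F hD4)
    (Pool.Agent.Y682.XF.cvd_eq F hD4)
  apply e.injective
  rw [map_nsmul, map_zero]
  apply hq k
  rw [← map_nsmul, hy, map_zero]

end Pool.Agent.V11291.RG
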